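import Pool.Agent.W5h78.Cyl.Phi

/-!
# Ultraproducts and ultraroots preserve the property
-/

set_option autoImplicit false

namespace Pool.Agent.W5h78.Cyl

open Filter

section los

variable {I : Type} (U : Ultrafilter I)

/-- a statement which holds if and only if it holds almost everywhere -/
def L (ψ : Prop) (ψi : I → Prop) : Prop := ψ ↔ ∀ᶠ i in (U : Filter I), ψi i

variable {U}

theorem L.and {ψ χ : Prop} {ψi χi : I → Prop} (h1 : L U ψ ψi) (h2 : L U χ χi) :
    L U (ψ ∧ χ) (fun i => ψi i ∧ χi i) := by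
  unfold L at *
  rw [eventually_and, h1, h2]

theorem L.or {ψ χ : Prop} {ψi χi : I → Prop} (h1 : L U ψ ψi) (h2 : L U χ χi) :
    L U (ψ ∨ χ) (fun i => ψi i ∨ χi i) := by
  unfold L at *
  rw [Ultrafilter.eventually_or, h1, h2]

theorem L.not {ψ : Prop} {ψi : I → Prop} (h1 : L U ψ ψi) : L U (¬ ψ) (fun i => ¬ ψi i) := by
  unfold L at *
  rw [Ultrafilter.eventually_not, h1]

theorem L.imp {ψ χ : Prop} {ψi χi : I → Prop} (h1 : L U ψ ψi) (h2 : L U χ χi) :
    L U (ψ → χ) (fun i => ψi i → χi i) := by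
  unfold L at *
  rw [Ultrafilter.eventually_imp, h1, h2]

theorem L.const (ψ : Prop) : L U ψ (fun _ => ψ) := by
  unfold L
  constructor
  · intro h
    exact Eventually.of_forall fun _ => h
  · intro h
    obtain ⟨_, h⟩ := h.exists
    exact h

theorem L.finall {J : Type} [Finite J] {ψ : J → Prop} {ψi : J → I → Prop} (h : ∀ j, L U (ψ j) (ψi j)) :
    L U (∀ j, ψ j) (fun i => ∀ j, ψi j i) := by
  unfold L at *
  rw [eventually_all]
  exact forall_congr' h

theorem L.finex {J : Type} [Finite J] {ψ : J → Prop} {ψi : J → I → Prop} (h : ∀ j, L U (ψ j) (ψi j)) :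
    L U (∃ j, ψ j) (fun i => ∃ j, ψi j i) := by
  have h1 := (L.finall fun j => (h j).not).not
  unfold L at *
  push Not at h1
  exact h1

theorem L.all {X : Type} {Xi : I → Type} [∀ i, Nonempty (Xi i)] {q : (∀ i, Xi i) → X}
    (hq : Function.Surjective q) {ψ : X → Prop} {ψi : ∀ i, Xi i → Prop}
    (h : ∀ f : ∀ i, Xi i, L U (ψ (q f)) (fun i => ψi i (f i))) :
    L U (∀ x, ψ x) (fun i => ∀ x, ψi i x) := by
  classical
  unfold L at *
  constructor
  · intro hx
    by_contra hcon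
    rw [← Ultrafilter.eventually_not] at hcon
    let f : ∀ i, Xi i := fun i => if hi : ∃ x, ¬ ψi i x then hi.choose else Classical.arbitrary _
    have h1 : ∀ᶠ i in (U : Filter I), ¬ ψi i (f i) := by
      filter_upwards [hcon] with i hi
      have hi' : ∃ x, ¬ ψi i x := not_forall.1 hi
      simp only [f, dif_pos hi']
      exact hi'.choose_spec
    have h2 := (h f).1 (hx _)
    obtain ⟨i, hi1, hi2⟩ := (h1.and h2).exists
    exact hi1 hi2
  · intro hx x
    obtain ⟨f, rfl⟩ := hq x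
    exact (h f).2 (hx.mono fun i hi => hi _)

end los

/-- the quotient map to an ultraproduct -/
structure UMap {n : ℕ} {I : Type} (U : Ultrafilter I) (B : I → Alg n) (A : Alg n)
    (p : (∀ i, B i) → A) : Prop where
  surj : Function.Surjective p
  eq : ∀ f g : ∀ i, B i, p f = p g ↔ ∀ᶠ i in (U : Filter I), f i = g i
  sup : ∀ f g : ∀ i, B i, p (fun i => f i ⊔ g i) = p f ⊔ p g
  compl : ∀ f : ∀ i, B i, p (fun i => (f i)ᶜ) = (p f)ᶜ
  c : ∀ (k : Fin n) (f : ∀ i, B i), p (fun i => (B i).c k (f i)) = A.c k (p f)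
  d : ∀ j k : Fin n, p (fun i => (B i).d j k) = A.d j k

namespace UMap

section

variable {n : ℕ} {I : Type} {U : Ultrafilter I} {B : I → Alg n} {A : Alg n}
  {p : (∀ i, B i) → A}

theorem inf (h : UMap U B A p) (f g : ∀ i, B i) : p (fun i => f i ⊓ g i) = p f ⊓ p g := by
  have h1 : (fun i => f i ⊓ g i) = fun i => ((f i)ᶜ ⊔ (g i)ᶜ)ᶜ := by
    funext i
    rw [compl_sup, compl_compl, compl_compl]
  rw [h1, h.compl, h.sup, h.compl, h.compl, compl_sup, compl_compl, compl_compl]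

theorem bot (h : UMap U B A p) : p (fun i => (⊥ : B i)) = ⊥ := by
  have h1 : (fun i => (⊥ : B i)) = fun i => (⊥ : B i) ⊓ (⊥ : B i)ᶜ := by
    funext i
    rw [bot_inf_eq]
  rw [h1, h.inf, h.compl, inf_compl_eq_bot]

theorem top (h : UMap U B A p) : p (fun i => (⊤ : B i)) = ⊤ := by
  have h1 : (fun i => (⊤ : B i)) = fun i => (⊥ : B i)ᶜ := by
    funext i
    rw [compl_bot]
  rw [h1, h.compl, h.bot, compl_bot]

theorem fininf (h : UMap U B A p) {ι : Type} (s : Finset ι) (f : ι → ∀ i, B i) :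
    p (fun i => s.inf fun j => f j i) = s.inf fun j => p (f j) := by
  classical
  induction s using Finset.induction_on with
  | empty => simpa using h.top
  | insert a s _ ih =>
    simp only [Finset.inf_insert]
    rw [h.inf, ih]

theorem leq (h : UMap U B A p) (f g : ∀ i, B i) : L U (p f = p g) (fun i => f i = g i) := h.eq f g

theorem lle (h : UMap U B A p) (f g : ∀ i, B i) : L U (p f ≤ p g) (fun i => f i ≤ g i) := by
  have h1 := h.leq (fun i => f i ⊓ g i) f
  rw [h.inf] at h1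
  simpa only [inf_eq_left] using h1

theorem lbot (h : UMap U B A p) (f : ∀ i, B i) : L U (p f = ⊥) (fun i => f i = ⊥) := by
  have h1 := h.leq f (fun i => (⊥ : B i))
  rwa [h.bot] at h1

theorem latom (h : UMap U B A p) (f : ∀ i, B i) : L U (IsAtom (p f)) (fun i => IsAtom (f i)) := by
  have h1 : ∀ {C : Type} [BooleanAlgebra C] (a : C), IsAtom a ↔ ¬ a = ⊥ ∧ ∀ b, b ≤ a → b = ⊥ ∨ b = a := by
    intro C _ a
    constructor
    · intro ha
      exact ⟨ha.1, fun b hb => ha.le_iff.1 hb⟩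
    · rintro ⟨h2, h3⟩
      refine ⟨h2, fun b hb => ?_⟩
      rcases h3 b hb.le with h4 | h4
      · exact h4
      · exact absurd h4 hb.ne
  have h2 : ∀ i, IsAtom (f i) ↔ ¬ f i = ⊥ ∧ ∀ b, b ≤ f i → b = ⊥ ∨ b = f i := fun i => h1 (f i)
  rw [h1 (p f)]
  simp only [h2]
  exact (h.lbot f).not.and (L.all h.surj fun g => (h.lle g f).imp ((h.lbot g).or (h.leq g f)))

/-- tuples -/
theorem surj_tuple (h : UMap U B A p) (J : Type) :
    Function.Surjective (fun (F : ∀ i, J → B i) (j : J) => p fun i => F i j) := by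
  intro x
  choose f hf using fun j => h.surj (x j)
  exact ⟨fun i j => f j i, funext fun j => hf j⟩

end

variable {m : ℕ} {I : Type} {U : Ultrafilter I} {B : I → Alg (m + 1)} {A : Alg (m + 1)}
  {p : (∀ i, B i) → A}

theorem pT (h : UMap U B A p) (f : ∀ i, B i) : ∀ j : ℕ, p (fun i => T (B i) j (f i)) = T A j (p f) := by
  intro j
  induction j with
  | zero => rfl
  | succ j ih =>
    by_cases hj : j + 1 < m + 1
    · simp only [T, dif_pos hj]
      rw [h.c, h.inf, h.d, ih]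
    · simp only [T, dif_neg hj]
      exact h.bot

theorem pcall (h : UMap U B A p) (f : ∀ i, B i) :
    ∀ j : ℕ, p (fun i => call (B i) j (f i)) = call A j (p f) := by
  intro j
  induction j with
  | zero => rfl
  | succ j ih =>
    by_cases hj : j < m + 1
    · simp only [call, dif_pos hj]
      rw [h.c, ih]
    · simp only [call, dif_neg hj]
      exact ih

theorem pRel (h : UMap U B A p) (F : ∀ i, Fin (m + 1) → B i) :
    p (fun i => Rel (B i) (F i)) = Rel A (fun j => p fun i => F i j) := by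
  unfold Rel
  rw [h.fininf]
  congr 1
  funext j
  rw [h.pT, h.c]

theorem pRel2 (h : UMap U B A p) (f g : ∀ i, B i) :
    p (fun i => Rel2 (B i) (f i) (g i)) = Rel2 A (p f) (p g) := by
  unfold Rel2
  rw [h.pRel]
  congr 1
  funext j
  split_ifs <;> rfl

theorem lRel (h : UMap U B A p) (F : ∀ i, Fin (m + 1) → B i) :
    L U (Rel A (fun j => p fun i => F i j) ≠ ⊥) (fun i => Rel (B i) (F i) ≠ ⊥) := by
  have h1 := (h.lbot (fun i => Rel (B i) (F i))).not
  rwa [h.pRel] at h1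

theorem lRel2 (h : UMap U B A p) (f g : ∀ i, B i) :
    L U (Rel2 A (p f) (p g) ≠ ⊥) (fun i => Rel2 (B i) (f i) (g i) ≠ ⊥) := by
  have h1 := (h.lbot (fun i => Rel2 (B i) (f i) (g i))).not
  rwa [h.pRel2] at h1

end UMap

theorem phi_iff {m : ℕ} (A : Alg (m + 1)) {K N : ℕ} (κ : Fin K → A) (y : Fin N → A) :
    Phi A κ y ↔ (∀ k, A.c 0 (κ k) = κ k) ∧
      (∀ x : A, IsAtom x → (∃ k, x ≤ κ k) ∨ ∃ i j : Fin (m + 1), 0 < i ∧ i < j ∧ x ≤ A.d i j) ∧
      (∀ (k : Fin K) (x : Fin (m + 1) → A), (∀ j, IsAtom (x j)) → (∀ j, x j ≤ κ k) → Rel A x ≠ ⊥ →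
        ∃ i j, Rel2 A (x i) (x j) ≠ ⊥) ∧
      (∀ (k : Fin K) (a : A), IsAtom a → a ≤ κ k → ¬ Rel2 A a a ≠ ⊥) ∧
      (∀ (k : Fin K) (a b : A), IsAtom a → IsAtom b → a ≤ κ k → b ≤ κ k → Rel2 A a b ≠ ⊥ →
        Rel2 A b a ≠ ⊥) ∧
      (∀ (k : Fin K) (a b b' : A), IsAtom a → IsAtom b → IsAtom b' → a ≤ κ k → b ≤ κ k → b' ≤ κ k →
        Rel2 A a b ≠ ⊥ → Rel2 A a b' ≠ ⊥ → A.c 0 b = A.c 0 b') ∧
      (∀ k l : Fin N, k ≠ l → y k ⊓ y l = ⊥) ∧
      (∀ k : Fin N, call A (m + 1) (y k) = ⊤) ∧ ¬ (⊥ : A) = ⊤ := by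
  constructor
  · intro h
    exact ⟨h.p0, h.p1, h.p2, fun k a h1 h2 h3 => h3 (h.p3 k a h1 h2), h.p4, h.p5, h.p6, h.p7, h.p8⟩
  · rintro ⟨h0, h1, h2, h3, h4, h5, h6, h7, h8⟩
    exact ⟨h0, h1, h2, fun k a h1 h2 => not_not.1 (h3 k a h1 h2), h4, h5, h6, h7, h8⟩

/-- Łoś's theorem for the property -/
theorem phi_los {m : ℕ} {I : Type} {U : Ultrafilter I} {B : I → Alg (m + 1)} {A : Alg (m + 1)}
    {p : (∀ i, B i) → A} (h : UMap U B A p) {K N : ℕ} (κ : Fin K → ∀ i, B i) (y : Fin N → ∀ i, B i) :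
    L U (Phi A (fun k => p (κ k)) (fun k => p (y k)))
      (fun i => Phi (B i) (fun k => κ k i) (fun k => y k i)) := by
  simp only [phi_iff]
  refine L.and ?_ (L.and ?_ (L.and ?_ (L.and ?_ (L.and ?_ (L.and ?_ (L.and ?_ (L.and ?_ ?_)))))))
  · refine L.finall fun k => ?_
    have h1 := h.leq (fun i => (B i).c 0 (κ k i)) (κ k)
    rwa [h.c] at h1
  · refine L.all h.surj fun x => (h.latom x).imp (L.or (L.finex fun k => h.lle x (κ k)) ?_)
    refine L.finex fun i => L.finex fun j => (L.const _).and ((L.const _).and ?_)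
    have h1 := h.lle x (fun a => (B a).d i j)
    rwa [h.d] at h1
  · refine L.finall fun k => L.all (h.surj_tuple (Fin (m + 1))) fun F => ?_
    refine L.imp (L.finall fun j => h.latom fun i => F i j) ?_
    refine L.imp (L.finall fun j => h.lle (fun i => F i j) (κ k)) ?_
    refine L.imp (h.lRel F) ?_
    exact L.finex fun i => L.finex fun j => h.lRel2 (fun a => F a i) (fun a => F a j)
  · refine L.finall fun k => L.all h.surj fun a => ?_
    exact (h.latom a).imp ((h.lle a (κ k)).imp (h.lRel2 a a).not)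
  · refine L.finall fun k => L.all h.surj fun a => L.all h.surj fun b => ?_
    exact (h.latom a).imp ((h.latom b).imp ((h.lle a (κ k)).imp ((h.lle b (κ k)).imp
      ((h.lRel2 a b).imp (h.lRel2 b a)))))
  · refine L.finall fun k => L.all h.surj fun a => L.all h.surj fun b => L.all h.surj fun b' => ?_
    refine (h.latom a).imp ((h.latom b).imp ((h.latom b').imp ((h.lle a (κ k)).imp
      ((h.lle b (κ k)).imp ((h.lle b' (κ k)).imp ((h.lRel2 a b).imp ((h.lRel2 a b').imp ?_)))))))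
    have h1 := h.leq (fun i => (B i).c 0 (b i)) (fun i => (B i).c 0 (b' i))
    rwa [h.c, h.c] at h1
  · refine L.finall fun k => L.finall fun l => (L.const _).imp ?_
    have h1 := h.lbot (fun i => y k i ⊓ y l i)
    rwa [h.inf] at h1
  · refine L.finall fun k => ?_
    have h1 := h.leq (fun i => call (B i) (m + 1) (y k i)) (fun i => (⊤ : B i))
    rwa [h.pcall, h.top] at h1
  · have h1 := (h.leq (fun i => (⊥ : B i)) (fun i => (⊤ : B i))).not
    rwa [h.top, h.bot] at h1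

theorem P_of_ultraproduct {m : ℕ} {I : Type} {U : Ultrafilter I} {B : I → Alg (m + 1)}
    {A : Alg (m + 1)} (h : IsUltraproduct U B A) {K N : ℕ} (hA : P A K N) : ∃ i, P (B i) K N := by
  obtain ⟨p, h1, h2, h3, h4, h5, h6⟩ := h
  have hp : UMap U B A p := ⟨h1, h2, h3, h4, h5, h6⟩
  obtain ⟨κ, y, hA⟩ := hA
  choose κ' hκ using fun k => hp.surj (κ k)
  choose y' hy using fun k => hp.surj (y k)
  have h7 := (phi_los hp κ' y').1 (by
    have e1 : (fun k => p (κ' k)) = κ := funext hκ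
    have e2 : (fun k => p (y' k)) = y := funext hy
    rw [e1, e2]
    exact hA)
  obtain ⟨i, hi⟩ := h7.exists
  exact ⟨i, _, _, hi⟩

theorem P_ultrapower {m : ℕ} {I : Type} {U : Ultrafilter I} {B C : Alg (m + 1)}
    (h : IsUltraproduct U (fun _ => B) C) {K N : ℕ} (hB : P B K N) : P C K N := by
  obtain ⟨p, h1, h2, h3, h4, h5, h6⟩ := h
  have hp : UMap U (fun _ : I => B) C p := ⟨h1, h2, h3, h4, h5, h6⟩
  obtain ⟨κ, y, hB⟩ := hB
  exact ⟨_, _, (phi_los hp (fun k _ => κ k) (fun k _ => y k)).2 (Eventually.of_forall fun _ => hB)⟩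

end Pool.Agent.W5h78.Cyl
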