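import Mathlib

/-!
# Cylindric algebras, atom structures, strongly representable algebras, ultraproducts and ultraroots
-/

set_option autoImplicit false

namespace Pool.Agent.W5h78.Cyl

/-- A Boolean algebra with unary operations `c i` and constants `d i j`, `i, j < n`: an algebra of the
similarity type of the cylindric algebras of dimension `n`. -/
structure Alg (n : ℕ) : Type 1 where
  /-- the set of elements -/
  carrier : Type
  [ba : BooleanAlgebra carrier]
  /-- the cylindrifications -/
  c : Fin n → carrier → carrier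
  /-- the diagonal elements -/
  d : Fin n → Fin n → carrier

attribute [instance] Alg.ba

instance (n : ℕ) : CoeSort (Alg n) Type := ⟨Alg.carrier⟩

/-- the axioms of cylindric algebras of dimension `n` -/
structure IsCA {n : ℕ} (A : Alg n) : Prop where
  c_bot : ∀ i, A.c i ⊥ = ⊥
  le_c : ∀ i x, x ≤ A.c i x
  c_inf : ∀ i x y, A.c i (x ⊓ A.c i y) = A.c i x ⊓ A.c i y
  c_comm : ∀ i j x, A.c i (A.c j x) = A.c j (A.c i x)
  d_refl : ∀ i, A.d i i = ⊤
  d_comp : ∀ i j k, k ≠ i → k ≠ j → A.d i j = A.c k (A.d i k ⊓ A.d k j)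
  c_diag : ∀ i j x, i ≠ j → A.c i (A.d i j ⊓ x) ⊓ A.c i (A.d i j ⊓ xᶜ) = ⊥

/-- the full cylindric set algebra of dimension `n` with base `U`: all sets of `n`-tuples -/
def setAlg (n : ℕ) (U : Type) : Alg n where
  carrier := Set (Fin n → U)
  c i X := {v | ∃ w : U, Function.update v i w ∈ X}
  d i j := {v | v i = v j}

/-- homomorphisms -/
structure IsHom {n : ℕ} (A B : Alg n) (h : A → B) : Prop where
  sup : ∀ x y, h (x ⊔ y) = h x ⊔ h y
  compl : ∀ x, h xᶜ = (h x)ᶜ
  c : ∀ i x, h (A.c i x) = B.c i (h x)
  d : ∀ i j, h (A.d i j) = B.d i j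

/-- `RCA_n`, the class of representable cylindric algebras: those isomorphic to a subdirect product of cylindric
set algebras of dimension `n` (subalgebras of full ones), that is, those for which the homomorphisms to full
cylindric set algebras separate the elements. -/
def RCA (n : ℕ) : Set (Alg n) :=
  {A | IsCA A ∧ ∃ (T : Type) (U : T → Type) (h : (t : T) → A → setAlg n (U t)),
    (∀ t, IsHom A (setAlg n (U t)) (h t)) ∧ ∀ x y : A, (∀ t, h t x = h t y) → x = y}

/-- The complex algebra of the atom structure of `A`: its elements are the sets of atoms. -/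
def cmAt {n : ℕ} (A : Alg n) : Alg n where
  carrier := Set {a : A // IsAtom a}
  c i X := {a | ∃ b ∈ X, a.1 ≤ A.c i b.1}
  d i j := {a | a.1 ≤ A.d i j}

/-- `SRCA_n`: the strongly representable atomic algebras -/
def SRCA (n : ℕ) : Set (Alg n) := {A | IsCA A ∧ IsAtomic A ∧ cmAt A ∈ RCA n}

/-- `WRCA_n`: the atomic representable algebras -/
def WRCA (n : ℕ) : Set (Alg n) := {A | A ∈ RCA n ∧ IsAtomic A}

/-- `A` is (isomorphic to) the ultraproduct of the algebras `B i` with respect to the ultrafilter `U`: there is a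
surjective homomorphism from the product of the `B i` to `A` which identifies two families if and
only if they agree for `U`-almost all indices. -/
def IsUltraproduct {n : ℕ} {I : Type} (U : Ultrafilter I) (B : I → Alg n) (A : Alg n) : Prop :=
  ∃ p : (∀ i, B i) → A, Function.Surjective p ∧
    (∀ f g : ∀ i, B i, p f = p g ↔ ∀ᶠ i in (U : Filter I), f i = g i) ∧
    (∀ f g : ∀ i, B i, p (fun i => f i ⊔ g i) = p f ⊔ p g) ∧
    (∀ f : ∀ i, B i, p (fun i => (f i)ᶜ) = (p f)ᶜ) ∧
    (∀ (k : Fin n) (f : ∀ i, B i), p (fun i => (B i).c k (f i)) = A.c k (p f)) ∧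
    ∀ j k : Fin n, p (fun i => (B i).d j k) = A.d j k

/-- the class of the ultraproducts of members of `K` -/
def Up {n : ℕ} (K : Set (Alg n)) : Set (Alg n) :=
  {A | ∃ (I : Type) (U : Ultrafilter I) (B : I → Alg n), (∀ i, B i ∈ K) ∧ IsUltraproduct U B A}

/-- the class of the algebras some ultrapower of which is in `K` -/
def Ur {n : ℕ} (K : Set (Alg n)) : Set (Alg n) :=
  {A | ∃ (I : Type) (U : Ultrafilter I) (C : Alg n), C ∈ K ∧ IsUltraproduct U (fun _ => A) C}

end Pool.Agent.W5h78.Cyl
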