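import Mathlib

/-!
# Ramsey's theorem for `m`-element subsets, finite version
-/

set_option autoImplicit false

namespace Pool.Agent.W5h78.Cyl

open Finset

/-- Ramsey's theorem -/
theorem ramsey (C : Type) [Finite C] : ∀ (m L : ℕ), ∃ N : ℕ, ∀ S : Finset ℕ, N ≤ S.card →
    ∀ χ : Finset ℕ → C, ∃ T ⊆ S, T.card = L ∧ ∃ κ, ∀ F ⊆ T, F.card = m → χ F = κ := by
  classical
  intro m
  induction m with
  | zero =>
    intro L
    refine ⟨L, fun S hS χ => ?_⟩
    obtain ⟨T, hT, hc⟩ := exists_subset_card_eq hS
    exact ⟨T, hT, hc, χ ∅, fun F _ hF => by rw [card_eq_zero.1 hF]⟩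
  | succ m ih =>
    intro L
    -- end-homogeneous sets
    have pre : ∀ l : ℕ, ∃ N : ℕ, ∀ S : Finset ℕ, N ≤ S.card → ∀ χ : Finset ℕ → C,
        ∃ T ⊆ S, T.card = l ∧ ∀ x ∈ T, ∃ κ, ∀ F ⊆ T, F.card = m → (∀ y ∈ F, x < y) →
          χ (insert x F) = κ := by
      intro l
      induction l with
      | zero => exact ⟨0, fun S _ χ => ⟨∅, empty_subset _, rfl, fun x hx => by simp at hx⟩⟩
      | succ l ihl =>
        obtain ⟨N, hN⟩ := ihl
        obtain ⟨N', hN'⟩ := ih N
        refine ⟨N' + 1, fun S hS χ => ?_⟩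
        have hne : S.Nonempty := card_pos.1 (by omega)
        set x := S.min' hne with hx
        have hxS : x ∈ S := min'_mem S hne
        have hc : N' ≤ (S.erase x).card := by rw [card_erase_of_mem hxS]; omega
        obtain ⟨T', hT', hT'c, κ, hκ⟩ := hN' (S.erase x) hc (fun F => χ (insert x F))
        obtain ⟨T'', hT'', hT''c, h''⟩ := hN T' hT'c.ge χ
        have hxlt : ∀ y ∈ T'', x < y := fun y hy =>
          lt_of_le_of_ne (min'_le _ _ (mem_of_mem_erase (hT' (hT'' hy))))
            (fun h => (ne_of_mem_erase (hT' (hT'' hy))) h.symm)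
        have hxn : x ∉ T'' := fun h => lt_irrefl _ (hxlt x h)
        refine ⟨insert x T'', ?_, ?_, ?_⟩
        · intro y hy
          rcases mem_insert.1 hy with rfl | hy
          · exact hxS
          · exact mem_of_mem_erase (hT' (hT'' hy))
        · rw [card_insert_of_notMem hxn, hT''c]
        · intro z hz
          rcases mem_insert.1 hz with rfl | hz
          · refine ⟨κ, fun F hF hFc hFl => hκ F ?_ hFc⟩
            intro y hy
            rcases mem_insert.1 (hF hy) with h | h
            · exact absurd (hFl y hy) (by rw [h]; exact lt_irrefl _)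
            · exact hT'' h
          · obtain ⟨κ', hκ'⟩ := h'' z hz
            refine ⟨κ', fun F hF hFc hFl => hκ' F ?_ hFc hFl⟩
            intro y hy
            rcases mem_insert.1 (hF hy) with h | h
            · have := hFl y hy
              have := hxlt z hz
              omega
            · exact h
    have := Fintype.ofFinite C
    obtain ⟨N, hN⟩ := pre (Fintype.card C * L)
    refine ⟨N, fun S hS χ => ?_⟩
    obtain ⟨T, hT, hTc, h⟩ := hN S hS χ
    have hCn : Nonempty C := ⟨χ ∅⟩
    choose! κ hκ using h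
    rcases Nat.eq_zero_or_pos L with hL | hL
    · subst hL
      by_cases hS0 : ∃ F : Finset ℕ, True
      · obtain ⟨F, _⟩ := hS0
        exact ⟨∅, empty_subset _, rfl, χ F, fun F' hF' hc => by
          rw [subset_empty.1 hF'] at hc; simp at hc⟩
      · exact absurd ⟨∅, trivial⟩ hS0
    obtain ⟨c, -, hc⟩ : ∃ c ∈ (univ : Finset C), L ≤ (T.filter fun x => κ x = c).card := by
      apply exists_le_card_fiber_of_mul_le_card_of_maps_to (fun x _ => mem_univ _)
      · exact univ_nonempty
      · rw [hTc, card_univ]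
    obtain ⟨T', hT', hT'c⟩ := exists_subset_card_eq hc
    refine ⟨T', fun x hx => hT (mem_of_mem_filter _ (hT' hx)), hT'c, c, ?_⟩
    intro F hF hFc
    have hne : F.Nonempty := card_pos.1 (by omega)
    set x := F.min' hne with hx
    have hxF : x ∈ F := min'_mem F hne
    have h1 := mem_filter.1 (hT' (hF hxF))
    have h2 := hκ x h1.1 (F.erase x)
      (fun y hy => mem_of_mem_filter _ (hT' (hF (mem_of_mem_erase hy))))
      (by rw [card_erase_of_mem hxF, hFc]; rfl)
      (fun y hy => lt_of_le_of_ne (min'_le _ _ (mem_of_mem_erase hy))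
        (fun h => (ne_of_mem_erase hy) h.symm))
    rw [insert_erase hxF] at h2
    rw [h2, h1.2]

end Pool.Agent.W5h78.Cyl
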