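import Pool.Agent.W5h78.Cyl.Phi
import Pool.Agent.W5h78.Cyl.Ram

/-!
# The complex algebra of the atom structure is not representable
-/

set_option autoImplicit false

namespace Pool.Agent.W5h78.Cyl

namespace IsCA

variable {n : ℕ} {A : Alg n}

theorem mono (h : IsCA A) (i : Fin n) {x y : A} (hxy : x ≤ y) : A.c i x ≤ A.c i y := by
  have h1 := h.c_inf i x y
  rw [inf_eq_left.2 (hxy.trans (h.le_c i y))] at h1
  rw [h1]
  exact inf_le_right

theorem c_c (h : IsCA A) (i : Fin n) (x : A) : A.c i (A.c i x) = A.c i x := by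
  have h1 := h.c_inf i ⊤ x
  have h2 : A.c i ⊤ = ⊤ := top_le_iff.1 (h.le_c i ⊤)
  rw [top_inf_eq, h2, top_inf_eq] at h1
  exact h1

theorem ne_bot (h : IsCA A) (i : Fin n) {x : A} (hx : x ≠ ⊥) : A.c i x ≠ ⊥ := fun h1 =>
  hx (le_bot_iff.1 ((h.le_c i x).trans h1.le))

/-- conjugation for an atom -/
theorem meet (h : IsCA A) (i : Fin n) {a b : A} (ha : a ≠ ⊥) (hab : a ≤ A.c i b) :
    b ⊓ A.c i a ≠ ⊥ := by
  intro h1
  have h2 := h.c_inf i b a
  rw [h1, h.c_bot] at h2
  have h3 : A.c i a ≤ A.c i b := (h.mono i hab).trans (h.c_c i b).le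
  rw [inf_eq_right.2 h3] at h2
  exact h.ne_bot i ha h2.symm

theorem conj (h : IsCA A) (i : Fin n) {a b : A} (ha : a ≠ ⊥) (hb : IsAtom b) (hab : a ≤ A.c i b) :
    b ≤ A.c i a := by
  have h1 := h.meet i ha hab
  rcases hb.le_iff.1 (inf_le_left : b ⊓ A.c i a ≤ b) with h2 | h2
  · exact absurd h2 h1
  · exact inf_eq_left.1 h2

theorem c_eq (h : IsCA A) (i : Fin n) {a b : A} (ha : a ≠ ⊥) (hb : IsAtom b) (hab : a ≤ A.c i b) :
    A.c i a = A.c i b := by
  apply le_antisymm
  · exact (h.mono i hab).trans (h.c_c i b).le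
  · exact (h.mono i (h.conj i ha hb hab)).trans (h.c_c i a).le

/-- complete additivity -/
theorem exists_atom (h : IsCA A) (hA : IsAtomic A) (i : Fin n) {a b : A} (ha : IsAtom a)
    (hab : a ≤ A.c i b) : ∃ x : A, IsAtom x ∧ x ≤ b ∧ a ≤ A.c i x := by
  obtain ⟨x, hx, hxb⟩ := (hA.eq_bot_or_exists_atom_le _).resolve_left (h.meet i ha.1 hab)
  refine ⟨x, hx, hxb.trans inf_le_left, ?_⟩
  exact h.conj i hx.1 ha (hxb.trans inf_le_right)

end IsCA

theorem atom_le_sup {B : Type} [BooleanAlgebra B] {a x y : B} (ha : IsAtom a) :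
    a ≤ x ⊔ y ↔ a ≤ x ∨ a ≤ y := by
  constructor
  · intro h
    by_contra hcon
    push Not at hcon
    have h1 : a ⊓ x = ⊥ := (ha.le_iff.1 (inf_le_left : a ⊓ x ≤ a)).resolve_right
      (fun h2 => hcon.1 (inf_eq_left.1 h2))
    have h2 : a ⊓ y = ⊥ := (ha.le_iff.1 (inf_le_left : a ⊓ y ≤ a)).resolve_right
      (fun h2 => hcon.2 (inf_eq_left.1 h2))
    have h3 : a = ⊥ := by
      rw [← inf_eq_left.2 h, inf_sup_left, h1, h2, sup_bot_eq]
    exact ha.1 h3
  · rintro (h | h)
    · exact h.trans le_sup_left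
    · exact h.trans le_sup_right

/-- the atoms below an element -/
def em {n : ℕ} (A : Alg n) (b : A) : cmAt A := ({a | a.1 ≤ b} : Set {a : A // IsAtom a})

theorem mem_em {n : ℕ} {A : Alg n} (b : A) (a : {a : A // IsAtom a}) :
    a ∈ (show Set {a : A // IsAtom a} from em A b) ↔ a.1 ≤ b := Iff.rfl

theorem em_hom {n : ℕ} {A : Alg n} (h : IsCA A) (hA : IsAtomic A) : IsHom A (cmAt A) (em A) where
  sup x y := by
    apply Set.ext
    intro a
    show a.1 ≤ x ⊔ y ↔ a.1 ≤ x ∨ a.1 ≤ y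
    exact atom_le_sup a.2
  compl x := by
    apply Set.ext
    intro a
    have h2 : IsAtom a.1 := a.2
    show a.1 ≤ xᶜ ↔ ¬ a.1 ≤ x
    constructor
    · intro h3 h4
      exact h2.1 (le_bot_iff.1 ((le_inf h4 h3).trans (inf_compl_eq_bot (a := x)).le))
    · intro h3
      have h4 : a.1 ≤ x ⊔ xᶜ := by rw [sup_compl_eq_top]; exact le_top
      exact ((atom_le_sup h2).1 h4).resolve_left h3
  c i x := by
    apply Set.ext
    intro a
    show a.1 ≤ A.c i x ↔ ∃ b ∈ {a : {a : A // IsAtom a} | a.1 ≤ x}, a.1 ≤ A.c i b.1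
    constructor
    · intro h3
      obtain ⟨y, hy, hyx, hay⟩ := h.exists_atom hA i a.2 h3
      exact ⟨⟨y, hy⟩, hyx, hay⟩
    · rintro ⟨b, hb, hab⟩
      exact hab.trans (h.mono i hb)
  d i j := rfl

/-- composition of a satisfaction relation and a homomorphism -/
theorem Sat.comp {n : ℕ} {A B : Alg n} {U : Type} {g : (Fin n → U) → B → Prop} (h : Sat B U g)
    {e : A → B} (he : IsHom A B e) : Sat A U (fun v x => g v (e x)) where
  sup v x y := by rw [he.sup, h.sup]
  compl v x := by rw [he.compl, h.compl]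
  c v i x := by rw [he.c, h.c]
  d v i j := by rw [he.d, h.d]

section

variable {m : ℕ} {A : Alg (m + 1)}

theorem mem_T (h : IsCA A) (X : Set {a : A // IsAtom a}) : ∀ (j : ℕ) (z : {a : A // IsAtom a}),
    z ∈ (show Set {a : A // IsAtom a} from T (cmAt A) j X) →
    ∃ x ∈ X, z.1 ≤ T A j (A.c 0 x.1) := by
  intro j
  induction j with
  | zero =>
    intro z hz
    exact ⟨z, hz, h.le_c 0 z.1⟩
  | succ j ih =>
    intro z hz
    by_cases hj : j + 1 < m + 1
    · have e1 : T (cmAt A) (j + 1) X = (cmAt A).c ⟨j + 1, hj⟩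
          ((cmAt A).d ⟨j + 1, hj⟩ ⟨j, Nat.lt_of_succ_lt hj⟩ ⊓ T (cmAt A) j X) := dif_pos hj
      rw [e1] at hz
      obtain ⟨y, hy, hzy⟩ := hz
      obtain ⟨x, hx, hyx⟩ := ih y hy.2
      refine ⟨x, hx, ?_⟩
      have e2 : T A (j + 1) (A.c 0 x.1) = A.c ⟨j + 1, hj⟩
          (A.d ⟨j + 1, hj⟩ ⟨j, Nat.lt_of_succ_lt hj⟩ ⊓ T A j (A.c 0 x.1)) := dif_pos hj
      rw [e2]
      exact hzy.trans (h.mono _ (le_inf hy.1 hyx))
    · have e1 : T (cmAt A) (j + 1) X = ⊥ := dif_neg hj
      rw [e1] at hz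
      exact absurd hz (fun h => h)

theorem rel2_congr {a a' b b' : A} (h1 : A.c 0 a = A.c 0 a') (h2 : A.c 0 b = A.c 0 b') :
    Rel2 A a b = Rel2 A a' b' := by
  unfold Rel2 Rel
  congr 1
  funext j
  congr 1
  show A.c 0 (if j = 0 then a else b) = A.c 0 (if j = 0 then a' else b')
  split_ifs
  · exact h1
  · exact h2

open Classical in
/-- the side of an atom -/
noncomputable def bit (A : Alg (m + 1)) (κ : A) (a : A) : Bool :=
  decide (∃ b : A, IsAtom b ∧ b ≤ κ ∧ Rel2 A a b ≠ ⊥ ∧ WellOrderingRel (A.c 0 b) (A.c 0 a))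

theorem bit_congr {κ a a' : A} (h1 : A.c 0 a = A.c 0 a') : bit A κ a = bit A κ a' := by
  unfold bit
  congr 1
  apply propext
  apply exists_congr
  intro b
  rw [rel2_congr h1 (rfl : A.c 0 b = A.c 0 b), h1]

variable {K N : ℕ} {κ : Fin K → A} {y : Fin N → A}

theorem bit_aux (h : Phi A κ y) (k : Fin K) {a b : A} (ha : IsAtom a) (hb : IsAtom b)
    (hak : a ≤ κ k) (hbk : b ≤ κ k) (hab : Rel2 A a b ≠ ⊥)
    (hlt : WellOrderingRel (A.c 0 b) (A.c 0 a)) : bit A (κ k) a = true ∧ bit A (κ k) b = false := by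
  classical
  constructor
  · unfold bit
    rw [decide_eq_true_eq]
    exact ⟨b, hb, hbk, hab, hlt⟩
  · unfold bit
    rw [decide_eq_false_iff_not]
    rintro ⟨b', hb', hbk', hab', hlt'⟩
    have h1 := h.p5 k b a b' hb ha hb' hbk hak hbk' (h.p4 k a b ha hb hak hbk hab) hab'
    rw [← h1] at hlt'
    exact asymm_of WellOrderingRel hlt hlt'

theorem bit_ne (h : Phi A κ y) (k : Fin K) {a b : A} (ha : IsAtom a) (hb : IsAtom b)
    (hak : a ≤ κ k) (hbk : b ≤ κ k) (hab : Rel2 A a b ≠ ⊥) : bit A (κ k) a ≠ bit A (κ k) b := by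
  rcases trichotomous_of WellOrderingRel (A.c 0 b) (A.c 0 a) with h1 | h1 | h1
  · obtain ⟨h2, h3⟩ := bit_aux h k ha hb hak hbk hab h1
    rw [h2, h3]
    simp
  · rw [rel2_congr rfl h1] at hab
    exact absurd (h.p3 k a ha hak) hab
  · obtain ⟨h2, h3⟩ := bit_aux h k hb ha hbk hak (h.p4 k a b ha hb hak hbk hab) h1
    rw [h2, h3]
    simp

/-- the sets of atoms -/
def cls (A : Alg (m + 1)) (κ : A) (ε : Bool) : Set {a : A // IsAtom a} :=
  {a | a.1 ≤ κ ∧ bit A κ a.1 = ε}

/-- the sets of atoms, as elements of the complex algebra -/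
def clsE (A : Alg (m + 1)) (κ : A) (ε : Bool) : cmAt A := cls A κ ε

theorem cls_closed (hca : IsCA A) (h : Phi A κ y) (k : Fin K) (ε : Bool) {U : Type}
    {g : (Fin (m + 1) → U) → cmAt A → Prop} (hg : Sat (cmAt A) U g) (v : Fin (m + 1) → U) (w : U)
    (hv : g (Function.update v 0 w) (clsE A (κ k) ε)) : g v (clsE A (κ k) ε) := by
  have h1 : g v ((cmAt A).c 0 (clsE A (κ k) ε)) := (hg.c v 0 _).2 ⟨w, hv⟩
  refine hg.mono ?_ h1
  show {a : {a : A // IsAtom a} | ∃ b ∈ cls A (κ k) ε, a.1 ≤ A.c 0 b.1} ⊆ cls A (κ k) ε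
  rintro a ⟨b, hb, hab⟩
  refine ⟨?_, ?_⟩
  · exact (hab.trans (hca.mono 0 hb.1)).trans (h.p0 k).le
  · rw [← hb.2]
    exact bit_congr (hca.c_eq 0 a.2.1 b.2 hab)

/-- A tuple with different coordinates `1, ..., m` is in one of the classes. -/
theorem exists_cls (h : Phi A κ y) {U : Type}
    {g : (Fin (m + 1) → U) → cmAt A → Prop} (hg : Sat (cmAt A) U g) (v : Fin (m + 1) → U)
    (hv : ∀ i j : Fin (m + 1), 0 < i → i < j → v i ≠ v j) :
    ∃ q : Fin K × Bool, g v (clsE A (κ q.1) q.2) := by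
  by_contra hcon
  push Not at hcon
  let D : Fin (m + 1) × Fin (m + 1) → cmAt A := fun q =>
    if 0 < q.1 ∧ q.1 < q.2 then (cmAt A).d q.1 q.2 else ⊥
  let X : cmAt A := (Finset.univ : Finset (Fin K × Bool)).sup (fun q => clsE A (κ q.1) q.2)
  have h1 : (⊤ : cmAt A) ≤ X ⊔ Finset.univ.sup D := by
    show (Set.univ : Set {a : A // IsAtom a}) ⊆ _
    intro a _
    rcases h.p1 a.1 a.2 with ⟨k, hk⟩ | ⟨i, j, hi, hij, hd⟩
    · left
      have h2 : clsE A (κ k) (bit A (κ k) a.1) ≤ X :=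
        Finset.le_sup (f := fun q : Fin K × Bool => clsE A (κ q.1) q.2)
          (Finset.mem_univ (k, bit A (κ k) a.1))
      exact h2 ⟨hk, rfl⟩
    · right
      have h2 : D (i, j) ≤ Finset.univ.sup D := Finset.le_sup (Finset.mem_univ (i, j))
      have h3 : D (i, j) = (cmAt A).d i j := if_pos ⟨hi, hij⟩
      rw [h3] at h2
      exact h2 hd
  have h2 := hg.mono h1 (hg.top v)
  rw [hg.sup, hg.finsup, hg.finsup] at h2
  rcases h2 with ⟨q, _, hq⟩ | ⟨q, _, hq⟩
  · exact hcon q hq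
  · simp only [D] at hq
    split_ifs at hq with h3
    · rw [hg.d] at hq
      exact hv _ _ h3.1 h3.2 hq
    · exact hg.bot v hq

/-- the main argument -/
theorem no_big_base (hm : 1 ≤ m) (hca : IsCA A) (h : Phi A κ y) {R : ℕ}
    (hR : ∀ S : Finset ℕ, R ≤ S.card → ∀ χ : Finset ℕ → Option (Fin K × Bool), ∃ T ⊆ S,
      T.card = m + 1 ∧ ∃ q, ∀ F ⊆ T, F.card = m → χ F = q)
    {U : Type} {g : (Fin (m + 1) → U) → cmAt A → Prop} (hg : Sat (cmAt A) U g)
    (f : Fin R → U) (hf : Function.Injective f) (u0 : U) : False := by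
  classical
  let f' : ℕ → U := fun x => if hx : x < R then f ⟨x, hx⟩ else u0
  have hf' : ∀ x y, x < R → y < R → f' x = f' y → x = y := by
    intro x y hx hy hxy
    simp only [f', dif_pos hx, dif_pos hy] at hxy
    exact congrArg Fin.val (hf hxy)
  let tup : (F : Finset ℕ) → F.card = m → Fin (m + 1) → U := fun F hF i =>
    f' (F.orderEmbOfFin hF ⟨i.val - 1, by omega⟩)
  have hex : ∀ F : Finset ℕ, ∀ hF : F.card = m, F ⊆ Finset.range R →
      ∃ q : Fin K × Bool, g (tup F hF) (clsE A (κ q.1) q.2) := by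
    intro F hF hFR
    apply exists_cls h hg
    intro i j hi hij heq
    have h1 : ∀ a, F.orderEmbOfFin hF a < R := fun a =>
      Finset.mem_range.1 (hFR (Finset.orderEmbOfFin_mem F hF a))
    have h2 := hf' _ _ (h1 _) (h1 _) heq
    have h3 := (F.orderEmbOfFin hF).injective h2
    have h4 := congrArg Fin.val h3
    simp only at h4
    have h5 : (0 : ℕ) < i.val := hi
    have h6 : i.val < j.val := hij
    omega
  let χ : Finset ℕ → Option (Fin K × Bool) := fun F =>
    if hF : F.card = m ∧ F ⊆ Finset.range R then some (hex F hF.1 hF.2).choose else none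
  obtain ⟨S, hSR, hS, q, hq⟩ := hR (Finset.range R) (by simp) χ
  have hχ : ∀ (F : Finset ℕ) (hF : F.card = m) (_ : F ⊆ Finset.range R) (q : Fin K × Bool),
      χ F = some q → g (tup F hF) (clsE A (κ q.1) q.2) := by
    intro F hF hFR q' hq'
    simp only [χ, dif_pos (And.intro hF hFR), Option.some.injEq] at hq'
    rw [← hq']
    exact (hex F hF hFR).choose_spec
  -- the enumeration of `S`
  let v : Fin (m + 1) → ℕ := S.orderEmbOfFin hS
  have hvS : ∀ i, v i ∈ S := fun i => Finset.orderEmbOfFin_mem S hS i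
  have hvm : StrictMono v := (S.orderEmbOfFin hS).strictMono
  have hc : ∀ j, (S.erase (v j)).card = m := fun j => by
    rw [Finset.card_erase_of_mem (hvS j), hS]; rfl
  have hq0 : ∃ q', q = some q' := by
    have h1 := hq _ (Finset.erase_subset (v 0) S) (hc 0)
    have h2 : (S.erase (v 0)).card = m ∧ S.erase (v 0) ⊆ Finset.range R :=
      ⟨hc 0, (Finset.erase_subset _ _).trans hSR⟩
    simp only [χ, dif_pos h2] at h1
    exact ⟨_, h1.symm⟩
  obtain ⟨q', rfl⟩ := hq0
  have hface : ∀ j : Fin (m + 1), g ((fun i => f' (v i)) ∘ rho m j.val) (clsE A (κ q'.1) q'.2) := by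
    intro j
    have h1 := hχ (S.erase (v j)) (hc j) ((Finset.erase_subset _ _).trans hSR) q'
      (hq _ (Finset.erase_subset _ _) (hc j))
    have h2 : ∀ a : Fin m, (S.erase (v j)).orderEmbOfFin (hc j) a = v (j.succAbove a) := by
      intro a
      have h3 : (fun a : Fin m => v (j.succAbove a)) = (S.erase (v j)).orderEmbOfFin (hc j) := by
        apply Finset.orderEmbOfFin_unique
        · intro b
          rw [Finset.mem_erase]
          exact ⟨fun h4 => Fin.succAbove_ne j b (hvm.injective h4), hvS _⟩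
        · exact hvm.comp (Fin.strictMono_succAbove j)
      exact (congrFun h3 a).symm
    refine cls_closed hca h q'.1 q'.2 hg _ (tup (S.erase (v j)) (hc j) 0) ?_
    have h6 : Function.update ((fun i => f' (v i)) ∘ rho m j.val) 0 (tup (S.erase (v j)) (hc j) 0)
        = tup (S.erase (v j)) (hc j) := ?_
    · rw [h6]
      exact h1
    funext i
    by_cases hi : i = 0
    · rw [hi, Function.update_self]
    · rw [Function.update_of_ne hi]
      show f' (v (rho m j.val i)) = f' ((S.erase (v j)).orderEmbOfFin (hc j) ⟨i.val - 1, _⟩)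
      rw [h2]
      congr 2
      apply Fin.ext
      have hi' : i.val ≠ 0 := fun h5 => hi (Fin.ext h5)
      rw [rho_val]
      by_cases hij : i.val ≤ j.val
      · rw [if_pos hij, Fin.succAbove_of_castSucc_lt]
        · rfl
        · show i.val - 1 < j.val
          omega
      · rw [if_neg hij, Fin.succAbove_of_le_castSucc]
        · show i.val = i.val - 1 + 1
          omega
        · show j.val ≤ i.val - 1
          omega
  -- the meet of the faces
  have hmeet : g (fun i => f' (v i)) ((Finset.univ : Finset (Fin (m + 1))).inf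
      (fun j => T (cmAt A) j.val (clsE A (κ q'.1) q'.2))) := by
    rw [hg.fininf]
    intro j _
    rw [hg.T _ _ _ j.2]
    exact hface j
  have hne : ∃ z : {a : A // IsAtom a}, ∀ j : Fin (m + 1),
      z ∈ (show Set {a : A // IsAtom a} from T (cmAt A) j.val (clsE A (κ q'.1) q'.2)) := by
    by_contra hcon
    apply hg.bot (fun i => f' (v i))
    convert hmeet using 1
    symm
    rw [eq_bot_iff]
    show (show Set {a : A // IsAtom a} from (Finset.univ : Finset (Fin (m + 1))).inf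
      (fun j => T (cmAt A) j.val (clsE A (κ q'.1) q'.2))) ⊆ ∅
    intro z hz
    apply hcon
    refine ⟨z, fun j => ?_⟩
    have h1 : (Finset.univ : Finset (Fin (m + 1))).inf
      (fun j => T (cmAt A) j.val (clsE A (κ q'.1) q'.2)) ≤ T (cmAt A) j.val (clsE A (κ q'.1) q'.2) :=
      Finset.inf_le (Finset.mem_univ j)
    exact h1 hz
  obtain ⟨z, hz⟩ := hne
  choose x hx hzx using fun j : Fin (m + 1) => mem_T hca _ j.val z (hz j)
  have hrel : Rel A (fun j => (x j).1) ≠ ⊥ := by
    intro h1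
    have h2 : z.1 ≤ Rel A (fun j => (x j).1) := Finset.le_inf fun j _ => hzx j
    rw [h1] at h2
    exact z.2.1 (le_bot_iff.1 h2)
  obtain ⟨i, j, hij⟩ := h.p2 q'.1 (fun j => (x j).1) (fun j => (x j).2) (fun j => (hx j).1) hrel
  have h1 := bit_ne h q'.1 (x i).2 (x j).2 (hx i).1 (hx j).1 hij
  rw [(hx i).2, (hx j).2] at h1
  exact h1 rfl

end

/-- The algebras with the property are not strongly representable. -/
theorem not_srca {m : ℕ} (hm : 1 ≤ m) {K R : ℕ}
    (hR : ∀ S : Finset ℕ, R ≤ S.card → ∀ χ : Finset ℕ → Option (Fin K × Bool), ∃ T ⊆ S,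
      T.card = m + 1 ∧ ∃ q, ∀ F ⊆ T, F.card = m → χ F = q)
    {A : Alg (m + 1)} (hP : P A K (R ^ (m + 1) + 1)) : A ∉ SRCA (m + 1) := by
  classical
  rintro ⟨hca, hat, -, T', U, h, hh, hsep⟩
  obtain ⟨κ, y, hphi⟩ := hP
  -- an atom
  obtain ⟨a, ha, -⟩ := (hat.eq_bot_or_exists_atom_le (⊤ : A)).resolve_left
    (fun h1 => hphi.p8 h1.symm)
  have hne : ({⟨a, ha⟩} : Set {a : A // IsAtom a}) ≠ ∅ := Set.singleton_ne_empty _
  obtain ⟨t, ht⟩ : ∃ t, h t (show cmAt A from ({⟨a, ha⟩} : Set {a : A // IsAtom a})) ≠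
      h t (show cmAt A from (∅ : Set {a : A // IsAtom a})) := by
    by_contra hcon
    push Not at hcon
    exact hne (hsep _ _ hcon)
  have hg := sat_of_hom (hh t)
  set g : (Fin (m + 1) → U t) → cmAt A → Prop :=
    fun v x => v ∈ (show Set (Fin (m + 1) → U t) from h t x) with hgdef
  obtain ⟨v0⟩ : Nonempty (Fin (m + 1) → U t) := by
    by_contra hcon
    rw [not_nonempty_iff] at hcon
    apply ht
    apply Set.ext
    intro v
    exact hcon.elim v
  have hg' := hg.comp (em_hom hca hat)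
  -- many tuples
  have hv : ∀ k, ∃ v, g v (em A (y k)) := by
    intro k
    have h1 := hg'.top v0
    rw [← hphi.p7 k] at h1
    obtain ⟨v', -, h2⟩ := (hg'.call (y k) (m + 1) v0 le_rfl).1 h1
    exact ⟨v', h2⟩
  choose v hv using hv
  have hinj : Function.Injective v := by
    intro k l hkl
    by_contra hne
    have h1 := hphi.p6 k l hne
    have h2 := (hg'.inf (v k) (y k) (y l)).2 ⟨hv k, hkl ▸ hv l⟩
    rw [h1] at h2
    exact hg'.bot _ h2
  obtain ⟨f, hf⟩ : ∃ f : Fin R → U t, Function.Injective f := by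
    by_cases hU : Finite (U t)
    · have := Fintype.ofFinite (U t)
      have h1 := Fintype.card_le_of_injective v hinj
      rw [Fintype.card_fin, Fintype.card_fun, Fintype.card_fin] at h1
      have h2 : R ≤ Fintype.card (U t) := by
        by_contra h3
        have h4 : Fintype.card (U t) ^ (m + 1) ≤ R ^ (m + 1) := Nat.pow_le_pow_left (by omega) _
        omega
      obtain ⟨f⟩ := Function.Embedding.nonempty_of_card_le (α := Fin R) (β := U t) (by simpa using h2)
      exact ⟨f, f.injective⟩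
    · rw [not_finite_iff_infinite] at hU
      exact ⟨fun i => Infinite.natEmbedding (U t) i.val, fun i j hij =>
        Fin.ext ((Infinite.natEmbedding (U t)).injective hij)⟩
  exact no_big_base hm hca hphi hR hg f hf (v0 0)

end Pool.Agent.W5h78.Cyl
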