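import Pool.Agent.W5h78.Cyl.Defs

/-!
# The first-order property
-/

set_option autoImplicit false

namespace Pool.Agent.W5h78.Cyl

variable {m : ℕ}

/-- The terms which move the coordinates: in a set algebra `T j X` consists of the tuples `v` with
`(v_0, v_0, ..., v_{j-1}, v_{j+1}, ..., v_m) ∈ X`. -/
def T (A : Alg (m + 1)) : ℕ → A → A
  | 0, x => x
  | j + 1, x => if h : j + 1 < m + 1 then
      A.c ⟨j + 1, h⟩ (A.d ⟨j + 1, h⟩ ⟨j, Nat.lt_of_succ_lt h⟩ ⊓ T A j x) else ⊥

/-- all cylindrifications -/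
def call (A : Alg (m + 1)) : ℕ → A → A
  | 0, x => x
  | j + 1, x => if h : j < m + 1 then A.c ⟨j, h⟩ (call A j x) else call A j x

/-- the term for: the `j`-th face is in `c 0 (x j)`, for all `j` -/
def Rel (A : Alg (m + 1)) (x : Fin (m + 1) → A) : A :=
  Finset.univ.inf fun j : Fin (m + 1) => T A j.val (A.c 0 (x j))

/-- the binary case -/
def Rel2 (A : Alg (m + 1)) (a b : A) : A := Rel A fun j => if j = 0 then a else b

/-- the property of the parameters -/
structure Phi (A : Alg (m + 1)) {K N : ℕ} (κ : Fin K → A) (y : Fin N → A) : Prop where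
  p0 : ∀ k, A.c 0 (κ k) = κ k
  p1 : ∀ x : A, IsAtom x → (∃ k, x ≤ κ k) ∨ ∃ i j : Fin (m + 1), 0 < i ∧ i < j ∧ x ≤ A.d i j
  p2 : ∀ (k : Fin K) (x : Fin (m + 1) → A), (∀ j, IsAtom (x j)) → (∀ j, x j ≤ κ k) → Rel A x ≠ ⊥ →
    ∃ i j, Rel2 A (x i) (x j) ≠ ⊥
  p3 : ∀ (k : Fin K) (a : A), IsAtom a → a ≤ κ k → Rel2 A a a = ⊥
  p4 : ∀ (k : Fin K) (a b : A), IsAtom a → IsAtom b → a ≤ κ k → b ≤ κ k → Rel2 A a b ≠ ⊥ →
    Rel2 A b a ≠ ⊥
  p5 : ∀ (k : Fin K) (a b b' : A), IsAtom a → IsAtom b → IsAtom b' → a ≤ κ k → b ≤ κ k → b' ≤ κ k →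
    Rel2 A a b ≠ ⊥ → Rel2 A a b' ≠ ⊥ → A.c 0 b = A.c 0 b'
  p6 : ∀ k l : Fin N, k ≠ l → y k ⊓ y l = ⊥
  p7 : ∀ k : Fin N, call A (m + 1) (y k) = ⊤
  p8 : (⊥ : A) ≠ ⊤

/-- the property -/
def P (A : Alg (m + 1)) (K N : ℕ) : Prop := ∃ (κ : Fin K → A) (y : Fin N → A), Phi A κ y

/-- satisfaction relations (homomorphisms to full set algebras) -/
structure Sat {n : ℕ} (A : Alg n) (U : Type) (g : (Fin n → U) → A → Prop) : Prop where
  sup : ∀ v x y, g v (x ⊔ y) ↔ g v x ∨ g v y
  compl : ∀ v x, g v xᶜ ↔ ¬ g v x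
  c : ∀ v i x, g v (A.c i x) ↔ ∃ w, g (Function.update v i w) x
  d : ∀ v i j, g v (A.d i j) ↔ v i = v j

theorem sat_of_hom {n : ℕ} {A : Alg n} {U : Type} {h : A → setAlg n U} (hh : IsHom A (setAlg n U) h) :
    Sat A U (fun v x => v ∈ (show Set (Fin n → U) from h x)) where
  sup v x y := by rw [hh.sup]; exact Iff.rfl
  compl v x := by rw [hh.compl]; exact Iff.rfl
  c v i x := by rw [hh.c]; exact Iff.rfl
  d v i j := by rw [hh.d]; exact Iff.rfl

namespace Sat

variable {n : ℕ} {A : Alg n} {U : Type} {g : (Fin n → U) → A → Prop}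

theorem top (h : Sat A U g) (v : Fin n → U) : g v ⊤ := by
  rw [← sup_compl_eq_top (x := (⊤ : A)), h.sup, h.compl]
  exact em _

theorem bot (h : Sat A U g) (v : Fin n → U) : ¬ g v ⊥ := by
  rw [← compl_top, h.compl, not_not]
  exact h.top v

theorem inf (h : Sat A U g) (v : Fin n → U) (x y : A) : g v (x ⊓ y) ↔ g v x ∧ g v y := by
  rw [← compl_compl (x ⊓ y), compl_inf, h.compl, h.sup, h.compl, h.compl]
  tauto

theorem mono (h : Sat A U g) {v : Fin n → U} {x y : A} (hxy : x ≤ y) (hx : g v x) : g v y := by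
  rw [← sup_eq_right.2 hxy, h.sup]
  exact Or.inl hx

theorem finsup (h : Sat A U g) (v : Fin n → U) {ι : Type} (s : Finset ι) (X : ι → A) :
    g v (s.sup X) ↔ ∃ i ∈ s, g v (X i) := by
  classical
  induction s using Finset.induction_on with
  | empty => simp [h.bot v]
  | insert a s _ ih => rw [Finset.sup_insert, h.sup, ih]; simp

theorem fininf (h : Sat A U g) (v : Fin n → U) {ι : Type} (s : Finset ι) (X : ι → A) :
    g v (s.inf X) ↔ ∀ i ∈ s, g v (X i) := by
  classical
  induction s using Finset.induction_on with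
  | empty => simp [h.top v]
  | insert a s _ ih => rw [Finset.inf_insert, h.inf, ih]; simp

end Sat

/-- the map of the coordinates -/
def rho (m : ℕ) (j : ℕ) (i : Fin (m + 1)) : Fin (m + 1) :=
  if i.val ≤ j then ⟨i.val - 1, by omega⟩ else i

theorem rho_val (m j : ℕ) (i : Fin (m + 1)) :
    (rho m j i).val = if i.val ≤ j then i.val - 1 else i.val := by
  unfold rho; split_ifs <;> rfl

theorem Sat.T {A : Alg (m + 1)} {U : Type} {g : (Fin (m + 1) → U) → A → Prop}
    (h : Sat A U g) (x : A) : ∀ (j : ℕ) (v : Fin (m + 1) → U), j < m + 1 →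
    (g v (T A j x) ↔ g (v ∘ rho m j) x) := by
  intro j
  induction j with
  | zero =>
    intro v _
    have : v ∘ rho m 0 = v := by
      funext i
      simp only [Function.comp]
      congr 1
      apply Fin.ext
      rw [rho_val]
      split_ifs <;> omega
    rw [this]
    rfl
  | succ j ih =>
    intro v hj
    unfold Cyl.T
    rw [dif_pos hj, h.c]
    have key : Function.update v ⟨j + 1, hj⟩ (v ⟨j, by omega⟩) ∘ rho m j = v ∘ rho m (j + 1) := by
      funext i
      simp only [Function.comp, Function.update_apply]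
      split_ifs with h1
      · congr 1
        apply Fin.ext
        have h2 := congrArg Fin.val h1
        rw [rho_val] at h2 ⊢
        simp only at h2 ⊢
        split_ifs at h2 ⊢ <;> omega
      · congr 1
        apply Fin.ext
        have h2 : (rho m j i).val ≠ j + 1 := fun h3 => h1 (Fin.ext h3)
        rw [rho_val] at h2
        rw [rho_val, rho_val]
        split_ifs at h2 ⊢ <;> omega
    have hne : (⟨j, by omega⟩ : Fin (m + 1)) ≠ ⟨j + 1, hj⟩ := fun h3 => by
      have := congrArg Fin.val h3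
      simp only at this
      omega
    constructor
    · rintro ⟨w, hw⟩
      rw [h.inf, h.d, ih _ (by omega)] at hw
      have h1 := hw.1
      rw [Function.update_self, Function.update_of_ne hne] at h1
      rw [h1, key] at hw
      exact hw.2
    · intro hx
      refine ⟨v ⟨j, by omega⟩, ?_⟩
      rw [h.inf, h.d, ih _ (by omega), key]
      refine ⟨?_, hx⟩
      rw [Function.update_self, Function.update_of_ne hne]

theorem Sat.call {A : Alg (m + 1)} {U : Type} {g : (Fin (m + 1) → U) → A → Prop}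
    (h : Sat A U g) (x : A) : ∀ (j : ℕ) (v : Fin (m + 1) → U), j ≤ m + 1 →
    (g v (call A j x) ↔ ∃ v', (∀ i, j ≤ i.val → v' i = v i) ∧ g v' x) := by
  intro j
  induction j with
  | zero =>
    intro v _
    constructor
    · intro hx
      exact ⟨v, fun _ _ => rfl, hx⟩
    · rintro ⟨v', h1, h2⟩
      have : v' = v := funext fun i => h1 i (Nat.zero_le _)
      rw [this] at h2
      exact h2
  | succ j ih =>
    intro v hj
    unfold Cyl.call
    rw [dif_pos (by omega), h.c]
    constructor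
    · rintro ⟨w, hw⟩
      obtain ⟨v', h1, h2⟩ := (ih _ (by omega)).1 hw
      refine ⟨v', fun i hi => ?_, h2⟩
      rw [h1 i (by omega), Function.update_of_ne]
      intro h3
      have := congrArg Fin.val h3
      simp only at this
      omega
    · rintro ⟨v', h1, h2⟩
      refine ⟨v' ⟨j, by omega⟩, (ih _ (by omega)).2 ⟨v', fun i hi => ?_, h2⟩⟩
      by_cases h3 : i = ⟨j, by omega⟩
      · rw [h3, Function.update_self]
      · rw [Function.update_of_ne h3]
        apply h1
        have : i.val ≠ j := fun h4 => h3 (Fin.ext h4)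
        omega

end Pool.Agent.W5h78.Cyl
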