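import Mathlib

/-!
# The labelled structure
-/

set_option autoImplicit false

namespace Pool.Agent.W5h78.Cyl

open Finset

/-- Labels: a colour (one of `m² + 1` colours) together with a name (a number and a side) or nothing
(the limit label of the colour). -/
abbrev Lab (m : ℕ) : Type := Fin (m * m + 1) × Option (ℕ × Bool)

/-- the other side -/
def flip {m : ℕ} (a : Lab m) : Lab m := (a.1, a.2.map fun q => (q.1, !q.2))

theorem flip_flip {m : ℕ} (a : Lab m) : flip (flip a) = a := by
  obtain ⟨c, o⟩ := a
  cases o <;> simp [flip]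

@[simp] theorem flip_fst {m : ℕ} (a : Lab m) : (flip a).1 = a.1 := rfl

theorem flip_none {m : ℕ} (a : Lab m) (h : a.2 = none) : flip a = a := by
  obtain ⟨c, o⟩ := a
  simp only at h
  subst h
  rfl

theorem flip_snd_none {m : ℕ} (a : Lab m) : (flip a).2 = none ↔ a.2 = none := by
  obtain ⟨c, o⟩ := a
  cases o <;> simp [flip]

theorem flip_ne {m : ℕ} (a : Lab m) (h : a.2 ≠ none) : flip a ≠ a := by
  obtain ⟨c, o⟩ := a
  cases o with
  | none => exact absurd rfl h
  | some q =>
    intro h1
    have := congrArg Prod.snd h1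
    simp only [flip, Option.map_some, Option.some.injEq] at this
    have := congrArg Prod.snd this
    simp at this

/-- two labels which may occur together -/
def good {m : ℕ} (a b : Lab m) : Prop := a.1 ≠ b.1 ∨ b = flip a

theorem good_symm {m : ℕ} {a b : Lab m} (h : good a b) : good b a := by
  rcases h with h | h
  · exact Or.inl h.symm
  · right
    rw [h, flip_flip]

theorem good_none {m : ℕ} {a b : Lab m} (ha : a.2 = none) (hb : b.2 = none) : good a b := by
  by_cases h : a.1 = b.1
  · right
    rw [flip_none a ha]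
    exact Prod.ext h.symm (by rw [ha, hb])
  · exact Or.inl h

/-- the labels `t` are compatible with the label `s` -/
def Allow {m : ℕ} (s : Lab m) (t : Fin m → Lab m) : Prop :=
  (∃ i, good s (t i)) ∨ ∃ i j, i ≠ j ∧ good (t i) (t j)

/-- points -/
inductive Pt (m : ℕ) : Type
  | base : ℕ → Pt m
  | ext : (Fin m → Pt m) → (Fin m → Lab m) → Pt m

namespace Pt

variable {m : ℕ}

/-- the rank -/
def rk : Pt m → ℕ
  | base _ => 0
  | ext u _ => (Finset.univ.sup fun i => rk (u i)) + 1

open Classical in
/-- the points over which a point was created -/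
noncomputable def U : Pt m → Finset (Pt m)
  | base _ => ∅
  | ext u _ => Finset.univ.image u

open Classical in
/-- the prescribed labels -/
noncomputable def tl : Pt m → Pt m → Lab m
  | base _, _ => (0, none)
  | ext u t, x => if h : ∃ i, u i = x then t h.choose else (0, none)

theorem rk_lt {w x : Pt m} (h : x ∈ U w) : rk x < rk w := by
  classical
  cases w with
  | base k => simp [U] at h
  | ext u t =>
    simp only [U, mem_image, mem_univ, true_and] at h
    obtain ⟨i, rfl⟩ := h
    show rk (u i) < (Finset.univ.sup fun i => rk (u i)) + 1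
    exact Nat.lt_succ_of_le (Finset.le_sup (f := fun i => rk (u i)) (mem_univ i))

theorem card_U (w : Pt m) : (U w).card ≤ m := by
  classical
  cases w with
  | base k => simp [U]
  | ext u t =>
    simp only [U]
    exact card_image_le.trans (by simp)

theorem tl_ext {u : Fin m → Pt m} (hu : Function.Injective u) (t : Fin m → Lab m) (i : Fin m) :
    tl (ext u t) (u i) = t i := by
  classical
  have h : ∃ j, u j = u i := ⟨i, rfl⟩
  simp only [tl, dif_pos h]
  rw [hu h.choose_spec]

end Pt

open Pt

variable {m : ℕ}

open Classical in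
/-- the label of `S` is prescribed by `w ∈ S`, as the one of the face omitting `x` -/
def Pres (S : Finset (Pt m)) (w x : Pt m) : Prop := w ∈ S ∧ x ∈ U w ∧ S.erase w = (U w).erase x

theorem Pres.unique {S : Finset (Pt m)} {w x w' x' : Pt m} (h : Pres S w x) (h' : Pres S w' x') :
    w = w' ∧ x = x' := by
  classical
  obtain ⟨h1, h2, h3⟩ := h
  obtain ⟨h1', h2', h3'⟩ := h'
  have hw : w = w' := by
    by_contra hne
    have h4 : w' ∈ S.erase w := mem_erase.2 ⟨fun h => hne h.symm, h1'⟩
    have h5 : w ∈ S.erase w' := mem_erase.2 ⟨hne, h1⟩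
    rw [h3] at h4
    rw [h3'] at h5
    have h6 := rk_lt (mem_of_mem_erase h4)
    have h7 := rk_lt (mem_of_mem_erase h5)
    omega
  subst hw
  refine ⟨rfl, ?_⟩
  rw [h3] at h3'
  by_contra hne
  have h4 : x ∈ (U w).erase x' := mem_erase.2 ⟨hne, h2⟩
  rw [← h3'] at h4
  exact notMem_erase _ _ h4

/-- a colour different from those of the labels prescribed by members of `S` -/
theorem exists_col (S : Finset (Pt m)) (hS : S.card ≤ m) :
    ∃ c : Fin (m * m + 1), ∀ w ∈ S, ∀ x ∈ U w, (tl w x).1 ≠ c := by
  classical
  by_contra hcon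
  push Not at hcon
  have h1 : (univ : Finset (Fin (m * m + 1))) ⊆ S.biUnion fun w => (U w).image fun x => (tl w x).1 := by
    intro c _
    obtain ⟨w, hw, x, hx, h⟩ := hcon c
    exact mem_biUnion.2 ⟨w, hw, mem_image.2 ⟨x, hx, h⟩⟩
  have h2 := card_le_card h1
  rw [card_univ, Fintype.card_fin] at h2
  have h3 : (S.biUnion fun w => (U w).image fun x => (tl w x).1).card ≤ m * m := by
    calc _ ≤ ∑ w ∈ S, ((U w).image fun x => (tl w x).1).card := card_biUnion_le
      _ ≤ ∑ w ∈ S, m := sum_le_sum fun w _ => card_image_le.trans (card_U w)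
      _ = S.card * m := by rw [sum_const, smul_eq_mul]
      _ ≤ m * m := Nat.mul_le_mul_right m hS
  omega

open Classical in
/-- the colour of the default label of `S` -/
noncomputable def col (S : Finset (Pt m)) : Fin (m * m + 1) :=
  if h : ∃ c : Fin (m * m + 1), ∀ w ∈ S, ∀ x ∈ U w, (tl w x).1 ≠ c then h.choose else 0

theorem col_spec (S : Finset (Pt m)) (hS : S.card ≤ m) {w x : Pt m} (hw : w ∈ S) (hx : x ∈ U w) :
    (tl w x).1 ≠ col S := by
  unfold col
  rw [dif_pos (exists_col S hS)]
  exact (exists_col S hS).choose_spec w hw x hx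

open Classical in
/-- the label of a set -/
noncomputable def lab (S : Finset (Pt m)) : Lab m :=
  if h : ∃ q : Pt m × Pt m, Pres S q.1 q.2 then tl h.choose.1 h.choose.2 else (col S, none)

theorem lab_pres {S : Finset (Pt m)} {w x : Pt m} (h : Pres S w x) : lab S = tl w x := by
  have h1 : ∃ q : Pt m × Pt m, Pres S q.1 q.2 := ⟨(w, x), h⟩
  unfold lab
  rw [dif_pos h1]
  obtain ⟨h2, h3⟩ := h1.choose_spec.unique h
  rw [h2, h3]

theorem lab_default {S : Finset (Pt m)} (h : ∀ w x, ¬ Pres S w x) : lab S = (col S, none) := by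
  unfold lab
  rw [dif_neg]
  rintro ⟨q, hq⟩
  exact h _ _ hq

open Classical in
/-- the valid points -/
inductive Valid : Pt m → Prop
  | base (k : ℕ) : Valid (base k)
  | ext (u : Fin m → Pt m) (t : Fin m → Lab m) (hu : ∀ i, Valid (u i)) (hi : Function.Injective u)
      (ha : Allow (lab (Finset.univ.image u)) t) : Valid (ext u t)

/-- Every set of `m + 1` valid points has two compatible faces. -/
theorem exists_good [DecidableEq (Pt m)] (hm : 2 ≤ m) (G : Finset (Pt m)) (hG : G.card = m + 1)
    (hv : ∀ x ∈ G, Valid x) :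
    ∃ x ∈ G, ∃ y ∈ G, x ≠ y ∧ good (lab (G.erase x)) (lab (G.erase y)) := by
  obtain ⟨w, hw, hmax⟩ := exists_max_image G rk (card_pos.1 (by omega))
  have hHc : (G.erase w).card = m := by rw [card_erase_of_mem hw, hG]; rfl
  have herase : ∀ (S : Finset (Pt m)) (a : Pt m),
      S.erase a = @Finset.erase (Pt m) (Classical.decEq _) S a := by
    intro S a
    ext b
    simp [mem_erase]
  have hPresw : ∀ (y : Pt m), y ∈ G.erase w → ∀ w' x', Pres (G.erase y) w' x' → w' = w := by
    intro y hy w' x' h
    obtain ⟨h1, h2, h3⟩ := h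
    by_contra hne
    have h4 : w ∈ @Finset.erase (Pt m) (Classical.decEq _) (G.erase y) w' := by
      rw [← herase, mem_erase, mem_erase]
      exact ⟨fun h => hne h.symm, fun h => (ne_of_mem_erase hy) h.symm, hw⟩
    rw [h3, ← herase] at h4
    have h5 := rk_lt (mem_of_mem_erase h4)
    have h6 := hmax w' (mem_of_mem_erase h1)
    omega
  by_cases hH : G.erase w = U w
  · -- a prescribed set
    have hvw := hv w hw
    cases hvw with
    | base k =>
      rw [hH] at hHc
      simp only [U, card_empty] at hHc
      omega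
    | ext u t hu hi ha =>
      have hU : ∀ i, u i ∈ U (Pt.ext u t) := fun i => by
        classical
        simp only [U, mem_image, mem_univ, true_and]
        exact ⟨i, rfl⟩
      have hlabU : lab (G.erase (Pt.ext u t)) = lab (@Finset.image _ _ (Classical.decEq _) u univ) := by
        rw [hH]
        rfl
      have hmem : ∀ i, u i ∈ G := fun i => by
        have := hU i
        rw [← hH] at this
        exact mem_of_mem_erase this
      have hne : ∀ i, u i ≠ Pt.ext u t := fun i => by
        have := hU i
        rw [← hH] at this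
        exact ne_of_mem_erase this
      have hlab : ∀ i, lab (G.erase (u i)) = t i := by
        intro i
        rw [← tl_ext hi t i]
        apply lab_pres
        refine ⟨mem_erase.2 ⟨(hne i).symm, hw⟩, hU i, ?_⟩
        rw [← herase, ← herase, erase_right_comm, hH]
      rcases ha with ⟨i, h⟩ | ⟨i, j, hij, h⟩
      · refine ⟨_, hw, u i, hmem i, (hne i).symm, ?_⟩
        rw [hlabU, hlab]
        exact h
      · refine ⟨u i, hmem i, u j, hmem j, fun h => hij (hi h), ?_⟩
        rw [hlab, hlab]
        exact h
  · -- at most one face containing `w` is prescribed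
    obtain ⟨y, hy, y', hy', hyy'⟩ := one_lt_card.1 (by omega : 1 < (G.erase w).card)
    have key : ∀ y y' : Pt m, y ∈ G.erase w → y' ∈ G.erase w → y ≠ y' →
        (∃ w' x', Pres (G.erase y) w' x') → ∀ w' x', ¬ Pres (G.erase y') w' x' := by
      rintro y y' hy hy' hne ⟨w1, x1, h1⟩ w2 x2 h2
      have e1 := hPresw y hy w1 x1 h1
      have e2 := hPresw y' hy' w2 x2 h2
      subst e1
      subst e2
      obtain ⟨-, -, h1⟩ := h1
      obtain ⟨-, -, h2⟩ := h2
      rw [← herase, ← herase] at h1 h2
      apply hH
      apply eq_of_subset_of_card_le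
      · intro z hz
        by_cases hzy : z = y
        · have h3 : z ∈ (G.erase y').erase w2 := by
            rw [mem_erase, mem_erase]
            exact ⟨ne_of_mem_erase hz, hzy ▸ hne, mem_of_mem_erase hz⟩
          rw [h2] at h3
          exact mem_of_mem_erase h3
        · have h3 : z ∈ (G.erase y).erase w2 := by
            rw [mem_erase, mem_erase]
            exact ⟨ne_of_mem_erase hz, hzy, mem_of_mem_erase hz⟩
          rw [h1] at h3
          exact mem_of_mem_erase h3
      · rw [hHc]
        exact card_U w2
    have fin : ∀ y y' : Pt m, y ∈ G.erase w → y' ∈ G.erase w → y ≠ y' →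
        (∀ w' x', ¬ Pres (G.erase y) w' x') →
        ∃ x ∈ G, ∃ y ∈ G, x ≠ y ∧ good (lab (G.erase x)) (lab (G.erase y)) := by
      intro y y' hy hy' hne hdef
      refine ⟨y, mem_of_mem_erase hy, y', mem_of_mem_erase hy', hne, ?_⟩
      rw [lab_default hdef]
      by_cases hp : ∃ w' x', Pres (G.erase y') w' x'
      · obtain ⟨w', x', hp⟩ := hp
        have e1 := hPresw y' hy' w' x' hp
        subst e1
        rw [lab_pres hp]
        left
        have hcard : (G.erase y).card ≤ m := by
          rw [card_erase_of_mem (mem_of_mem_erase hy), hG]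
          rfl
        exact (col_spec (G.erase y) hcard
          (mem_erase.2 ⟨(ne_of_mem_erase hy).symm, hw⟩) hp.2.1).symm
      · push Not at hp
        rw [lab_default hp]
        exact good_none rfl rfl
    by_cases hp : ∃ w' x', Pres (G.erase y) w' x'
    · exact fin y' y hy' hy hyy'.symm (key y y' hy hy' hyy' hp)
    · push Not at hp
      exact fin y y' hy hy' hyy' hp

/-- the extension property -/
theorem exists_ext [DecidableEq (Pt m)] {u : Fin m → Pt m} (hu : ∀ i, Valid (u i))
    (hi : Function.Injective u) {t : Fin m → Lab m} (ha : Allow (lab (univ.image u)) t) :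
    ∃ w, Valid w ∧ w ∉ univ.image u ∧ ∀ i, lab (insert w ((univ.image u).erase (u i))) = t i := by
  have herase : ∀ (S : Finset (Pt m)) (a : Pt m),
      S.erase a = @Finset.erase (Pt m) (Classical.decEq _) S a := by
    intro S a
    ext b
    simp [mem_erase]
  have himage : univ.image u = @Finset.image _ _ (Classical.decEq _) u univ := by
    ext b
    simp [mem_image]
  have hU : U (Pt.ext u t) = univ.image u := by
    rw [himage]
    rfl
  have hw : Pt.ext u t ∉ univ.image u := by
    intro h
    rw [← hU] at h
    exact lt_irrefl _ (rk_lt h)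
  refine ⟨Pt.ext u t, Valid.ext u t hu hi (by rw [← himage]; exact ha), hw, fun i => ?_⟩
  rw [← tl_ext hi t i]
  apply lab_pres
  refine ⟨mem_insert_self _ _, ?_, ?_⟩
  · rw [hU]
    exact mem_image_of_mem u (mem_univ i)
  · rw [← herase, ← herase, hU, erase_insert]
    intro h
    exact hw (mem_of_mem_erase h)

end Pool.Agent.W5h78.Cyl
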