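import Pool.Agent.W5h78.Cyl.Trunc
import Pool.Agent.W5h78.Cyl.NonRep

/-!
# The set algebra
-/

set_option autoImplicit false

namespace Pool.Agent.W5h78.Cyl

open Finset Function

attribute [local instance] Classical.propDecidable

variable {m : ℕ}

/-- `X` is a union of truncated types -/
def InvSet (N : ℕ) (X : Set (Fin (m + 1) → M m)) : Prop := ∀ v v', E N v v' → v ∈ X → v' ∈ X

theorem InvSet.mono {N N' : ℕ} (hN : N ≤ N') {X : Set (Fin (m + 1) → M m)} (h : InvSet N X) :
    InvSet N' X := fun v v' hv => h v v' (hv.mono hN)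

/-- the sets which are unions of truncated types -/
def AA (m : ℕ) : BooleanSubalgebra (Set (Fin (m + 1) → M m)) where
  carrier := {X | ∃ N, InvSet N X}
  supClosed' := by
    rintro X ⟨N, hX⟩ Y ⟨N', hY⟩
    refine ⟨max N N', fun v v' h hv => ?_⟩
    rcases hv with hv | hv
    · exact Or.inl (hX.mono (le_max_left _ _) v v' h hv)
    · exact Or.inr (hY.mono (le_max_right _ _) v v' h hv)
  infClosed' := by
    rintro X ⟨N, hX⟩ Y ⟨N', hY⟩
    exact ⟨max N N', fun v v' h hv => ⟨hX.mono (le_max_left _ _) v v' h hv.1,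
      hY.mono (le_max_right _ _) v v' h hv.2⟩⟩
  compl_mem' := by
    rintro X ⟨N, hX⟩
    exact ⟨N, fun v v' h hv hv' => hv (hX v' v h.symm hv')⟩
  bot_mem' := ⟨0, fun v v' _ hv => hv⟩

/-- the algebra -/
def exA (hm : 2 ≤ m) : Alg (m + 1) where
  carrier := AA m
  c i X := ⟨{v | ∃ w, Function.update v i w ∈ X.1}, by
    obtain ⟨N, hN⟩ := X.2
    refine ⟨N, fun v v' h hv => ?_⟩
    obtain ⟨w, hw⟩ := hv
    obtain ⟨w', h1, -⟩ := back_forth hm h i w
    exact ⟨w', hN _ _ h1 hw⟩⟩
  d i j := ⟨{v | v i = v j}, ⟨0, fun v v' h hv => (h.1 i j).1 hv⟩⟩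

variable {hm : 2 ≤ m}

/-- membership -/
def mem (v : Fin (m + 1) → M m) (X : exA hm) : Prop := v ∈ (show AA m from X).1

theorem sat_exA : Sat (exA hm) (M m) mem where
  sup _ _ _ := Iff.rfl
  compl _ _ := Iff.rfl
  c _ _ _ := Iff.rfl
  d _ _ _ := Iff.rfl

theorem le_iff' (X Y : exA hm) : X ≤ Y ↔ ∀ v, mem v X → mem v Y := Iff.rfl

theorem ext_mem {X Y : exA hm} (h : ∀ v, mem v X ↔ mem v Y) : X = Y :=
  Subtype.ext (Set.ext h)

theorem ne_bot_iff (X : exA hm) : X ≠ ⊥ ↔ ∃ v, mem v X := by
  constructor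
  · intro h
    by_contra hcon
    push Not at hcon
    exact h (ext_mem fun v => ⟨fun h1 => absurd h1 (hcon v), fun h1 => absurd h1 (sat_exA.bot v)⟩)
  · rintro ⟨v, hv⟩ rfl
    exact sat_exA.bot v hv

theorem atom_le {x y : exA hm} (hx : IsAtom x) {v : Fin (m + 1) → M m} (h1 : mem v x)
    (h2 : mem v y) : x ≤ y := by
  have h3 : x ⊓ y ≠ ⊥ := (ne_bot_iff _).2 ⟨v, (sat_exA.inf v x y).2 ⟨h1, h2⟩⟩
  exact inf_eq_left.1 ((hx.le_iff.1 (inf_le_left : x ⊓ y ≤ x)).resolve_left h3)

theorem inv_of (X : exA hm) : ∃ N, ∀ v v', E N v v' → mem v X → mem v' X := X.2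

theorem exists_pr_mem {x : exA hm} (hx : x ≠ ⊥) : ∃ v, mem v x ∧ Pr v := by
  obtain ⟨v, hv⟩ := (ne_bot_iff x).1 hx
  obtain ⟨N, hN⟩ := inv_of x
  obtain ⟨v', h1, h2⟩ := exists_pr hm N v
  exact ⟨v', hN v v' h1 hv, h2⟩

theorem exists_bound (v : Fin (m + 1) → M m) : ∃ N, ∀ J : Finset (Fin (m + 1)),
    nm (lb (J.image v)) < N := by
  refine ⟨(univ.sup fun J : Finset (Fin (m + 1)) => nm (lb (J.image v))) + 1, fun J => ?_⟩
  exact Nat.lt_succ_of_le (Finset.le_sup (f := fun J : Finset (Fin (m + 1)) => nm (lb (J.image v)))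
    (mem_univ J))

/-- The truncated type of a tuple whose labels have names determines its type. -/
theorem E.all {v v' : Fin (m + 1) → M m} (hP : Pr v) {N : ℕ} (hN : ∀ J : Finset (Fin (m + 1)),
    nm (lb (J.image v)) < N) (h : E N v v') (N' : ℕ) : E N' v v' := by
  refine ⟨h.1, fun J hJ => ?_⟩
  rw [eq_of_tr (hP J hJ) (hN J) (h.2 J hJ)]

theorem atomic_exA : IsAtomic (exA hm) := by
  refine ⟨fun x => ?_⟩
  by_cases hx : x = ⊥
  · exact Or.inl hx
  right
  obtain ⟨v, hv, hP⟩ := exists_pr_mem hx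
  obtain ⟨N1, hN1⟩ := inv_of x
  obtain ⟨N2, hN2⟩ := exists_bound v
  let a : exA hm := ⟨{v' | E N2 v v'}, ⟨N2, fun _ _ h hv => hv.trans h⟩⟩
  have hall : ∀ v', mem v' a → ∀ N, E N v v' := fun v' h1 N => E.all hP hN2 h1 N
  refine ⟨a, ⟨(ne_bot_iff a).2 ⟨v, E.refl _ _⟩, fun b hb => ?_⟩, ?_⟩
  · by_contra hb0
    obtain ⟨z, hz⟩ := (ne_bot_iff b).1 hb0
    obtain ⟨N, hN⟩ := inv_of b
    apply hb.not_ge
    intro v' hv'
    have h1 := hall v' hv' N
    have h2 := hall z (hb.le hz) N
    exact hN z v' (h2.symm.trans h1) hz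
  · intro v' hv'
    exact hN1 v v' (hall v' hv' N1) hv

/-! ### labels of atoms -/

/-- the tuples whose zeroth face has the label `s` -/
def face (s : Lab m) (v : Fin (m + 1) → M m) : Prop :=
  ((univ.erase (0 : Fin (m + 1))).image v).card = m ∧ lb ((univ.erase (0 : Fin (m + 1))).image v) = s

/-- the element for a label with a name -/
noncomputable def Lam (hm : 2 ≤ m) (s : Lab m) (hs : s.2 ≠ none) : exA hm :=
  ⟨{v | face s v}, ⟨nm s + 1, fun v v' h hv => ⟨(card_eq h.1 _).symm.trans hv.1, by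
    have h1 := h.2 _ hv.1
    rw [hv.2] at h1
    exact eq_of_tr hs (Nat.lt_succ_self _) h1⟩⟩⟩

/-- the element for a colour -/
noncomputable def kap (hm : 2 ≤ m) (c : Fin (m * m + 1)) : exA hm :=
  ⟨{v | ((univ.erase (0 : Fin (m + 1))).image v).card = m ∧
    (lb ((univ.erase (0 : Fin (m + 1))).image v)).1 = c}, ⟨0, fun v v' h hv =>
      ⟨(card_eq h.1 _).symm.trans hv.1, by
    have h1 := congrArg Prod.fst (h.2 _ hv.1)
    simp only [tr_fst] at h1
    rw [← h1]
    exact hv.2⟩⟩⟩

theorem image_update_zero (v : Fin (m + 1) → M m) (w : M m) :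
    (univ.erase (0 : Fin (m + 1))).image (Function.update v 0 w) =
      (univ.erase (0 : Fin (m + 1))).image v := by
  rw [image_update, if_neg (notMem_erase _ _)]

theorem c0_Lam (s : Lab m) (hs : s.2 ≠ none) : (exA hm).c 0 (Lam hm s hs) = Lam hm s hs := by
  apply ext_mem
  intro v
  rw [sat_exA.c]
  constructor
  · rintro ⟨w, h1, h2⟩
    rw [image_update_zero] at h1 h2
    exact ⟨h1, h2⟩
  · rintro ⟨h1, h2⟩
    refine ⟨v 0, ?_⟩
    rw [Function.update_eq_self]
    exact ⟨h1, h2⟩

theorem c0_kap (c : Fin (m * m + 1)) : (exA hm).c 0 (kap hm c) = kap hm c := by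
  apply ext_mem
  intro v
  rw [sat_exA.c]
  constructor
  · rintro ⟨w, h1, h2⟩
    rw [image_update_zero] at h1 h2
    exact ⟨h1, h2⟩
  · rintro ⟨h1, h2⟩
    refine ⟨v 0, ?_⟩
    rw [Function.update_eq_self]
    exact ⟨h1, h2⟩

theorem inj_of_card {v : Fin (m + 1) → M m} {i : Fin (m + 1)}
    (h : ((univ.erase i).image v).card = m) {a b : Fin (m + 1)} (ha : a ≠ i) (hb : b ≠ i)
    (hab : v a = v b) : a = b := by
  have h1 : Set.InjOn v (univ.erase i : Finset (Fin (m + 1))) := card_image_iff.1 (by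
    rw [h, card_erase_of_mem (mem_univ i), card_univ, Fintype.card_fin]
    rfl)
  exact h1 (by simpa using ha) (by simpa using hb) hab

/-- Two tuples whose zeroth faces have the same truncated label have the same truncated type after
deletion of the zeroth coordinate. -/
theorem E_of_face {N : ℕ} {v v' : Fin (m + 1) → M m}
    (h : ((univ.erase (0 : Fin (m + 1))).image v).card = m)
    (h' : ((univ.erase (0 : Fin (m + 1))).image v').card = m)
    (hl : tr N (lb ((univ.erase (0 : Fin (m + 1))).image v)) =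
      tr N (lb ((univ.erase (0 : Fin (m + 1))).image v')))
    {σ : Fin (m + 1) → Fin (m + 1)} (hσ : ∀ a, σ a ≠ 0) : E N (v ∘ σ) (v' ∘ σ) := by
  have hp : ∀ i j, (v ∘ σ) i = (v ∘ σ) j ↔ (v' ∘ σ) i = (v' ∘ σ) j := by
    intro i j
    constructor
    · intro h1
      have := inj_of_card h (hσ i) (hσ j) h1
      simp only [comp, this]
    · intro h1
      have := inj_of_card h' (hσ i) (hσ j) h1
      simp only [comp, this]
  refine ⟨hp, fun J hJ => ?_⟩
  have hJ' := hJ
  rw [card_eq hp] at hJ'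
  have hsub : ∀ z : Fin (m + 1) → M m, J.image (z ∘ σ) ⊆ (univ.erase (0 : Fin (m + 1))).image z := by
    intro z x hx
    obtain ⟨j, _, rfl⟩ := mem_image.1 hx
    exact mem_image.2 ⟨σ j, mem_erase.2 ⟨hσ j, mem_univ _⟩, rfl⟩
  rw [eq_of_subset_of_card_le (hsub v) (by rw [h, hJ]),
    eq_of_subset_of_card_le (hsub v') (by rw [h', hJ'])]
  exact hl

/-- The label of an atom below a colour. -/
theorem exists_label {x : exA hm} (hx : IsAtom x) {c : Fin (m * m + 1)} (hc : x ≤ kap hm c) :
    ∃ s : Lab m, s.2 ≠ none ∧ s.1 = c ∧ ∀ v, mem v ((exA hm).c 0 x) ↔ face s v := by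
  obtain ⟨v, hv, hP⟩ := exists_pr_mem hx.1
  have h1 := hc hv
  set s := lb ((univ.erase (0 : Fin (m + 1))).image v) with hs
  have hs0 : s.2 ≠ none := hP _ h1.1
  have hle : x ≤ Lam hm s hs0 := atom_le hx hv ⟨h1.1, rfl⟩
  refine ⟨s, hs0, h1.2, ?_⟩
  intro z
  rw [sat_exA.c]
  constructor
  · rintro ⟨w, hw⟩
    have h2 := hle hw
    obtain ⟨h3, h4⟩ := h2
    rw [image_update_zero] at h3 h4
    exact ⟨h3, h4⟩
  · rintro ⟨h2, h3⟩
    obtain ⟨N, hN⟩ := inv_of x
    have hm1 : 1 < m + 1 := by omega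
    have h4 : E N (v ∘ fun a => if a = 0 then ⟨1, hm1⟩ else a) (z ∘ fun a => if a = 0 then ⟨1, hm1⟩ else a) := by
      apply E_of_face h1.1 h2
      · rw [h3]
      · intro a
        split_ifs with ha
        · intro h5
          have := congrArg Fin.val h5
          simp at this
        · exact ha
    have key : ∀ y : Fin (m + 1) → M m, (y ∘ fun a => if a = 0 then (⟨1, hm1⟩ : Fin (m + 1)) else a) =
        Function.update y 0 (y ⟨1, hm1⟩) := by
      intro y
      funext a
      simp only [Function.update_apply, comp]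
      split_ifs <;> rfl
    rw [key, key] at h4
    obtain ⟨w', h5, -⟩ := back_forth hm h4 0 (v 0)
    rw [Function.update_idem, Function.update_idem, Function.update_eq_self] at h5
    exact ⟨w', hN _ _ h5 hv⟩

/-- existence of sets with a given label -/
theorem exists_set (hm : 2 ≤ m) (s : Lab m) :
    ∃ u : Fin m → M m, Injective u ∧ lb (univ.image u) = s := by
  obtain ⟨V, hV⟩ := Infinite.exists_subset_card_eq (M m) (m - 1)
  obtain ⟨w, hw, h⟩ := ext_small hm V s
  obtain ⟨u, hu, hui⟩ := exists_enum (S := insert w V) (m := m) (by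
    rw [card_insert_of_notMem hw]
    omega)
  exact ⟨u, hu, by rw [hui]; exact h (by omega)⟩

theorem image_rho (j : Fin (m + 1)) :
    (univ.erase (0 : Fin (m + 1))).image (rho m j.val) = univ.erase j := by
  ext a
  simp only [mem_image, mem_erase, mem_univ, and_true]
  constructor
  · rintro ⟨i, hi, rfl⟩ h
    have hi' : i.val ≠ 0 := fun h1 => hi (Fin.ext h1)
    have := congrArg Fin.val h
    rw [rho_val] at this
    split_ifs at this <;> omega
  · intro ha
    have ha' : a.val ≠ j.val := fun h1 => ha (Fin.ext h1)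
    by_cases h : a.val < j.val
    · refine ⟨⟨a.val + 1, by omega⟩, fun h1 => ?_, ?_⟩
      · have := congrArg Fin.val h1
        simp at this
      · apply Fin.ext
        rw [rho_val]
        simp only
        split_ifs <;> omega
    · refine ⟨a, fun h1 => ?_, ?_⟩
      · have := congrArg Fin.val h1
        simp only [Fin.val_zero] at this
        omega
      · apply Fin.ext
        rw [rho_val]
        split_ifs <;> omega

theorem mem_Rel {x : Fin (m + 1) → exA hm} {s : Fin (m + 1) → Lab m}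
    (hs : ∀ j v, mem v ((exA hm).c 0 (x j)) ↔ face (s j) v) (v : Fin (m + 1) → M m) :
    mem v (Rel (exA hm) x) ↔ ∀ j, ((univ.erase j).image v).card = m ∧
      lb ((univ.erase j).image v) = s j := by
  unfold Rel
  rw [sat_exA.fininf]
  constructor
  · intro h j
    have h1 := h j (mem_univ j)
    rw [sat_exA.T _ _ _ j.2, hs] at h1
    unfold face at h1
    rw [← image_image, image_rho] at h1
    exact h1
  · intro h j _
    rw [sat_exA.T _ _ _ j.2, hs]
    unfold face
    rw [← image_image, image_rho]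
    exact h j

theorem exists_good_pair (hm : 2 ≤ m) {v : Fin (m + 1) → M m} {s : Fin (m + 1) → Lab m}
    (h : ∀ j, ((univ.erase j).image v).card = m ∧ lb ((univ.erase j).image v) = s j) :
    Injective v ∧ ∃ i j, i ≠ j ∧ good (s i) (s j) := by
  have hv : Injective v := by
    intro a b hab
    obtain ⟨j, hja, hjb⟩ : ∃ j : Fin (m + 1), j ≠ a ∧ j ≠ b := by
      by_contra hcon
      push Not at hcon
      have h1 : (univ : Finset (Fin (m + 1))) ⊆ {a, b} := by
        intro j _
        by_cases hj : j = a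
        · simp [hj]
        · simp [hcon j hj]
      have h2 := card_le_card h1
      rw [card_univ, Fintype.card_fin] at h2
      have h3 := card_le_two (a := a) (b := b)
      omega
    exact inj_of_card (h j).1 hja.symm hjb.symm hab
  refine ⟨hv, ?_⟩
  obtain ⟨x, hx, y, hy, hxy, hg⟩ := goodM hm (univ.image v) (by
    rw [card_image_of_injective _ hv, card_univ, Fintype.card_fin])
  obtain ⟨i, -, rfl⟩ := mem_image.1 hx
  obtain ⟨j, -, rfl⟩ := mem_image.1 hy
  refine ⟨i, j, fun h1 => hxy (by rw [h1]), ?_⟩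
  rw [← image_erase hv, ← image_erase hv, (h i).2, (h j).2] at hg
  exact hg

theorem rel2_iff {a b : exA hm} {c : Fin (m * m + 1)} {sa sb : Lab m} (ha : sa.1 = c) (hb : sb.1 = c)
    (hsb : sb.2 ≠ none)
    (hca : ∀ v, mem v ((exA hm).c 0 a) ↔ face sa v) (hcb : ∀ v, mem v ((exA hm).c 0 b) ↔ face sb v) :
    Rel2 (exA hm) a b ≠ ⊥ ↔ sb = flip sa := by
  have hs : ∀ j v, mem v ((exA hm).c 0 (if j = (0 : Fin (m + 1)) then a else b)) ↔
      face (if j = 0 then sa else sb) v := by
    intro j v
    split_ifs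
    · exact hca v
    · exact hcb v
  rw [ne_bot_iff]
  unfold Rel2
  constructor
  · rintro ⟨v, hv⟩
    rw [mem_Rel hs] at hv
    obtain ⟨-, i, j, hij, hg⟩ := exists_good_pair hm hv
    by_cases hi : i = 0
    · have hj : j ≠ 0 := fun h => hij (hi.trans h.symm)
      rw [if_pos hi, if_neg hj] at hg
      rcases hg with h | h
      · exact absurd (ha.trans hb.symm) h
      · exact h
    · by_cases hj : j = 0
      · rw [if_neg hi, if_pos hj] at hg
        rcases hg with h | h
        · exact absurd (hb.trans ha.symm) h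
        · rw [h, flip_flip]
      · rw [if_neg hi, if_neg hj] at hg
        rcases hg with h | h
        · exact absurd rfl h
        · exact absurd h.symm (flip_ne _ hsb)
  · intro h
    obtain ⟨u, hu, hlu⟩ := exists_set hm sa
    obtain ⟨w, hw, hwl⟩ := extM hu (t := fun _ => sb) (Or.inl ⟨⟨0, by omega⟩, by
      rw [hlu]
      exact Or.inr h⟩)
    let v : Fin (m + 1) → M m := Fin.cons w u
    have hv : Injective v := by
      rw [Fin.cons_injective_iff]
      refine ⟨fun h1 => hw ?_, hu⟩
      obtain ⟨k, rfl⟩ := h1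
      exact mem_image_of_mem u (mem_univ k)
    have himg : univ.image v = insert w (univ.image u) := by
      ext x
      simp only [mem_image, mem_univ, true_and, mem_insert]
      rw [Fin.exists_fin_succ]
      simp only [v, Fin.cons_zero, Fin.cons_succ]
      constructor
      · rintro (h1 | h1)
        · exact Or.inl h1.symm
        · exact Or.inr h1
      · rintro (h1 | h1)
        · exact Or.inl h1.symm
        · exact Or.inr h1
    refine ⟨v, ?_⟩
    rw [mem_Rel hs]
    intro j
    have hj : (univ.erase j).image v = (univ.image v).erase (v j) := image_erase hv _ _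
    constructor
    · rw [card_image_of_injective _ hv, card_erase_of_mem (mem_univ j), card_univ, Fintype.card_fin]
      rfl
    · rw [hj, himg]
      refine Fin.cases ?_ (fun k => ?_) j
      · rw [if_pos rfl]
        simp only [v, Fin.cons_zero]
        rw [erase_insert hw]
        exact hlu
      · rw [if_neg (Fin.succ_ne_zero k)]
        simp only [v, Fin.cons_succ]
        rw [erase_insert_of_ne]
        · exact hwl k
        · intro h1
          exact hw (by rw [h1]; exact mem_image_of_mem u (mem_univ k))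

/-- The algebra has the property. -/
theorem phi_exA (hm : 2 ≤ m) (N : ℕ) : Phi (exA hm) (kap hm)
    (fun k : Fin N => Lam hm (0, some (k.val, false)) (by simp)) where
  p0 k := c0_kap k
  p1 x hx := by
    obtain ⟨v, hv⟩ := (ne_bot_iff x).1 hx.1
    by_cases h : ((univ.erase (0 : Fin (m + 1))).image v).card = m
    · left
      exact ⟨_, atom_le hx hv (y := kap hm (lb ((univ.erase (0 : Fin (m + 1))).image v)).1) ⟨h, rfl⟩⟩
    · right
      have h1 : ¬ Set.InjOn v (univ.erase (0 : Fin (m + 1)) : Finset (Fin (m + 1))) := by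
        intro h2
        apply h
        rw [card_image_iff.2 h2, card_erase_of_mem (mem_univ _), card_univ, Fintype.card_fin]
        rfl
      unfold Set.InjOn at h1
      push Not at h1
      obtain ⟨a, ha, b, hb, hab, hne⟩ := h1
      have ha' : a ≠ 0 := by simpa using ha
      have hb' : b ≠ 0 := by simpa using hb
      rcases lt_or_gt_of_ne hne with hlt | hlt
      · exact ⟨a, b, Fin.pos_of_ne_zero ha', hlt, atom_le hx hv hab⟩
      · exact ⟨b, a, Fin.pos_of_ne_zero hb', hlt, atom_le hx hv hab.symm⟩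
  p2 k x hx hxk hrel := by
    choose s hs1 hs2 hs3 using fun j => exists_label (hx j) (hxk j)
    obtain ⟨v, hv⟩ := (ne_bot_iff _).1 hrel
    rw [mem_Rel hs3] at hv
    obtain ⟨-, i, j, -, hg⟩ := exists_good_pair hm hv
    refine ⟨i, j, (rel2_iff (hs2 i) (hs2 j) (hs1 j) (hs3 i) (hs3 j)).2 ?_⟩
    rcases hg with h | h
    · exact absurd ((hs2 i).trans (hs2 j).symm) h
    · exact h
  p3 k a ha hak := by
    obtain ⟨s, hs1, hs2, hs3⟩ := exists_label ha hak
    by_contra h
    exact flip_ne s hs1 ((rel2_iff hs2 hs2 hs1 hs3 hs3).1 h).symm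
  p4 k a b ha hb hak hbk h := by
    obtain ⟨s, hs1, hs2, hs3⟩ := exists_label ha hak
    obtain ⟨s', hs1', hs2', hs3'⟩ := exists_label hb hbk
    rw [rel2_iff hs2 hs2' hs1' hs3 hs3'] at h
    rw [rel2_iff hs2' hs2 hs1 hs3' hs3, h, flip_flip]
  p5 k a b b' ha hb hb' hak hbk hbk' h h' := by
    obtain ⟨s, hs1, hs2, hs3⟩ := exists_label ha hak
    obtain ⟨t, ht1, ht2, ht3⟩ := exists_label hb hbk
    obtain ⟨t', ht1', ht2', ht3'⟩ := exists_label hb' hbk'
    rw [rel2_iff hs2 ht2 ht1 hs3 ht3] at h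
    rw [rel2_iff hs2 ht2' ht1' hs3 ht3'] at h'
    apply ext_mem
    intro v
    rw [ht3, ht3', h, h']
  p6 k l hkl := by
    by_contra h
    obtain ⟨v, hv⟩ := (ne_bot_iff _).1 h
    rw [sat_exA.inf] at hv
    have h1 : lb ((univ.erase (0 : Fin (m + 1))).image v) = (0, some (k.val, false)) := hv.1.2
    have h2 : lb ((univ.erase (0 : Fin (m + 1))).image v) = (0, some (l.val, false)) := hv.2.2
    rw [h1] at h2
    simp only [Prod.mk.injEq, Option.some.injEq, and_true, true_and] at h2
    exact hkl (Fin.ext h2)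
  p7 k := by
    apply ext_mem
    intro v
    refine ⟨fun _ => sat_exA.top v, fun _ => ?_⟩
    rw [sat_exA.call _ _ _ le_rfl]
    obtain ⟨u, hu, hlu⟩ := exists_set hm ((0, some (k.val, false)) : Lab m)
    refine ⟨Fin.cons (u ⟨0, by omega⟩) u, fun i hi => absurd i.2 (by omega), ?_⟩
    have h1 : (univ.erase (0 : Fin (m + 1))).image (Fin.cons (u ⟨0, by omega⟩) u : Fin (m + 1) → M m) =
        univ.image u := by
      ext x
      simp only [mem_image, mem_erase, mem_univ, and_true, true_and]
      constructor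
      · rintro ⟨i, hi, rfl⟩
        obtain ⟨k, rfl⟩ := Fin.exists_succ_eq.2 hi
        exact ⟨k, by rw [Fin.cons_succ]⟩
      · rintro ⟨k, rfl⟩
        exact ⟨k.succ, Fin.succ_ne_zero k, by rw [Fin.cons_succ]⟩
    refine ⟨?_, ?_⟩
    · rw [h1, card_image_of_injective _ hu, card_univ, Fintype.card_fin]
    · rw [h1]
      exact hlu
  p8 := by
    intro h
    have h1 : (⊤ : exA hm) ≠ ⊥ := (ne_bot_iff _).2
      ⟨fun _ => ⟨Pt.base 0, Valid.base 0⟩, sat_exA.top _⟩
    exact h1 h.symm

theorem isCA_exA (hm : 2 ≤ m) : IsCA (exA hm) where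
  c_bot i := by
    apply ext_mem
    intro v
    rw [sat_exA.c]
    exact ⟨fun ⟨w, hw⟩ => absurd hw (sat_exA.bot _), fun h => absurd h (sat_exA.bot _)⟩
  le_c i x := by
    intro v hv
    exact (sat_exA.c v i x).2 ⟨v i, by rw [Function.update_eq_self]; exact hv⟩
  c_inf i x y := by
    apply ext_mem
    intro v
    simp only [sat_exA.c, sat_exA.inf, Function.update_idem]
    constructor
    · rintro ⟨w, h1, h2⟩
      exact ⟨⟨w, h1⟩, h2⟩
    · rintro ⟨⟨w, h1⟩, h2⟩
      exact ⟨w, h1, h2⟩
  c_comm i j x := by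
    apply ext_mem
    intro v
    simp only [sat_exA.c]
    by_cases hij : i = j
    · rw [hij]
    · constructor
      · rintro ⟨w, w', h⟩
        exact ⟨w', w, by rw [Function.update_comm (Ne.symm hij)]; exact h⟩
      · rintro ⟨w, w', h⟩
        exact ⟨w', w, by rw [Function.update_comm hij]; exact h⟩
  d_refl i := by
    apply ext_mem
    intro v
    rw [sat_exA.d]
    exact ⟨fun _ => sat_exA.top v, fun _ => rfl⟩
  d_comp i j k hi hj := by
    apply ext_mem
    intro v
    simp only [sat_exA.c, sat_exA.inf, sat_exA.d, Function.update_self,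
      Function.update_of_ne hi.symm, Function.update_of_ne hj.symm]
    constructor
    · intro h
      exact ⟨v i, rfl, h⟩
    · rintro ⟨w, h1, h2⟩
      exact h1.trans h2
  c_diag i j x hij := by
    apply ext_mem
    intro v
    simp only [sat_exA.c, sat_exA.inf, sat_exA.d, sat_exA.compl, Function.update_self,
      Function.update_of_ne hij.symm]
    constructor
    · rintro ⟨⟨w, h1, h2⟩, ⟨w', h3, h4⟩⟩
      rw [h1] at h2
      rw [h3] at h4
      exact absurd h2 h4
    · intro h
      exact absurd h (sat_exA.bot v)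

theorem exA_mem (hm : 2 ≤ m) : exA hm ∈ WRCA (m + 1) := by
  refine ⟨⟨isCA_exA hm, Unit, fun _ => M m, fun _ X => (show AA m from X).1, fun _ => ⟨?_, ?_, ?_, ?_⟩, ?_⟩, atomic_exA⟩
  · intro x y
    rfl
  · intro x
    rfl
  · intro i x
    rfl
  · intro i j
    rfl
  · intro x y h
    exact Subtype.ext (h ())

end Pool.Agent.W5h78.Cyl
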