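import Pool.Agent.W5h78.Cyl.Pts

/-!
# Truncated types and the back and forth property
-/

set_option autoImplicit false

namespace Pool.Agent.W5h78.Cyl

open Finset Function

attribute [local instance] Classical.propDecidable

/-- the base -/
abbrev M (m : ℕ) : Type := {x : Pt m // Valid x}

variable {m : ℕ}

/-- the label of a finite set of points -/
noncomputable def lb (S : Finset (M m)) : Lab m := lab (S.map ⟨Subtype.val, Subtype.val_injective⟩)

instance : Infinite (M m) := Infinite.of_injective (fun k : ℕ => (⟨Pt.base k, Valid.base k⟩ : M m))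
  (fun a b h => by
    have := congrArg Subtype.val h
    simpa using this)

theorem goodM (hm : 2 ≤ m) (G : Finset (M m)) (hG : G.card = m + 1) :
    ∃ x ∈ G, ∃ y ∈ G, x ≠ y ∧ good (lb (G.erase x)) (lb (G.erase y)) := by
  obtain ⟨x, hx, y, hy, hxy, h⟩ := exists_good hm (G.map ⟨Subtype.val, Subtype.val_injective⟩)
    (by rw [card_map, hG]) (by
      intro x hx
      obtain ⟨a, _, rfl⟩ := mem_map.1 hx
      exact a.2)
  obtain ⟨x, hx', rfl⟩ := mem_map.1 hx
  obtain ⟨y, hy', rfl⟩ := mem_map.1 hy
  refine ⟨x, hx', y, hy', fun h => hxy (by rw [h]), ?_⟩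
  unfold lb
  rw [map_erase, map_erase]
  exact h

theorem extM {u : Fin m → M m} (hi : Injective u) {t : Fin m → Lab m}
    (ha : Allow (lb (univ.image u)) t) :
    ∃ w, w ∉ univ.image u ∧ ∀ i, lb (insert w ((univ.image u).erase (u i))) = t i := by
  have h0 : (univ.image u).map ⟨Subtype.val, Subtype.val_injective⟩ =
      univ.image (fun i => (u i).1) := by
    ext b
    simp only [mem_map, mem_image, mem_univ, true_and, Embedding.coeFn_mk]
    constructor
    · rintro ⟨a, ⟨i, rfl⟩, rfl⟩
      exact ⟨i, rfl⟩
    · rintro ⟨i, rfl⟩
      exact ⟨u i, ⟨i, rfl⟩, rfl⟩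
  obtain ⟨w, hw, hwu, h⟩ := exists_ext (u := fun i => (u i).1) (fun i => (u i).2)
    (fun a b hab => hi (Subtype.ext hab)) (t := t) (by
      rw [← h0]
      exact ha)
  refine ⟨⟨w, hw⟩, fun h1 => hwu ?_, fun i => ?_⟩
  · rw [← h0]
    exact mem_map_of_mem ⟨Subtype.val, Subtype.val_injective⟩ h1
  · unfold lb
    rw [map_insert, map_erase, h0]
    exact h i

/-! ### truncation -/

/-- forget the names `≥ N` -/
def tr (N : ℕ) (a : Lab m) : Lab m := (a.1, a.2.bind fun q => if q.1 < N then some q else none)

@[simp] theorem tr_fst (N : ℕ) (a : Lab m) : (tr N a).1 = a.1 := rfl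

theorem tr_flip (N : ℕ) (a : Lab m) : tr N (flip a) = flip (tr N a) := by
  obtain ⟨c, o⟩ := a
  cases o with
  | none => rfl
  | some q =>
    unfold tr flip
    simp only [Option.map_some, Option.bind_some]
    split_ifs <;> simp

theorem tr_tr {N N' : ℕ} (h : N ≤ N') (a : Lab m) : tr N (tr N' a) = tr N a := by
  obtain ⟨c, o⟩ := a
  cases o with
  | none => rfl
  | some q =>
    unfold tr
    simp only [Option.bind_some]
    by_cases h1 : q.1 < N
    · rw [if_pos (by omega : q.1 < N')]
      simp [h1]
    · rw [if_neg h1]
      by_cases h2 : q.1 < N'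
      · simp [h2, h1]
      · simp [h2]

theorem tr_mono {N N' : ℕ} (h : N ≤ N') {a b : Lab m} (hab : tr N' a = tr N' b) : tr N a = tr N b := by
  rw [← tr_tr h a, hab, tr_tr h]

/-- the name -/
def nm (a : Lab m) : ℕ := (a.2.map Prod.fst).getD 0

theorem eq_of_tr {N : ℕ} {a b : Lab m} (ha : a.2 ≠ none) (hN : nm a < N) (h : tr N a = tr N b) :
    b = a := by
  obtain ⟨c, o⟩ := a
  obtain ⟨c', o'⟩ := b
  cases o with
  | none => exact absurd rfl ha
  | some q =>
    have h1 : q.1 < N := hN
    have h2 := congrArg Prod.fst h
    have h3 := congrArg Prod.snd h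
    simp only [tr_fst] at h2
    subst h2
    simp only [tr, Option.bind_some, if_pos h1] at h3
    cases o' with
    | none => simp at h3
    | some q' =>
      simp only [Option.bind_some] at h3
      split_ifs at h3
      rw [h3]

/-- replace the limit labels by labels with the name `N` -/
def pr (N : ℕ) (a : Lab m) : Lab m := (a.1, some (a.2.getD (N, false)))

theorem pr_ne (N : ℕ) (a : Lab m) : (pr N a).2 ≠ none := by simp [pr]

theorem tr_pr (N : ℕ) (a : Lab m) : tr N (pr N a) = tr N a := by
  obtain ⟨c, o⟩ := a
  cases o with
  | none => simp [tr, pr]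
  | some q => simp [tr, pr]

theorem label_lemma {N : ℕ} {s s' : Lab m} {t : Fin m → Lab m} (h : tr N s = tr N s')
    (ha : Allow s t) : ∃ t' : Fin m → Lab m, (∀ k, tr N (t k) = tr N (t' k)) ∧ Allow s' t' ∧
      (s'.2 ≠ none → ∀ k, (t' k).2 ≠ none) := by
  have hc : s.1 = s'.1 := by
    have h0 := congrArg Prod.fst h
    exact h0
  -- first step
  obtain ⟨t1, ht1, ha1⟩ : ∃ t1 : Fin m → Lab m, (∀ k, tr N (t k) = tr N (t1 k)) ∧ Allow s' t1 := by
    rcases ha with ⟨k, h1 | h1⟩ | ⟨k, l, hkl, h1⟩
    · exact ⟨t, fun _ => rfl, Or.inl ⟨k, Or.inl (by rw [← hc]; exact h1)⟩⟩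
    · refine ⟨Function.update t k (flip s'), fun l => ?_, Or.inl ⟨k, Or.inr ?_⟩⟩
      · by_cases hl : l = k
        · rw [hl, Function.update_self, h1, tr_flip, tr_flip, h]
        · rw [Function.update_of_ne hl]
      · rw [Function.update_self]
    · exact ⟨t, fun _ => rfl, Or.inr ⟨k, l, hkl, h1⟩⟩
  by_cases hs : s'.2 = none
  · exact ⟨t1, ht1, ha1, fun h2 => absurd hs h2⟩
  · have hpr : ∀ k, tr N (t k) = tr N (pr N (t1 k)) := fun k => by rw [tr_pr, ht1]
    rcases ha1 with ⟨k, h1 | h1⟩ | ⟨k, l, hkl, h1 | h1⟩
    · exact ⟨fun k => pr N (t1 k), hpr, Or.inl ⟨k, Or.inl h1⟩, fun _ k => pr_ne N _⟩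
    · refine ⟨Function.update (fun k => pr N (t1 k)) k (flip s'), fun l => ?_, Or.inl ⟨k, Or.inr ?_⟩, ?_⟩
      · by_cases hl : l = k
        · rw [hl, Function.update_self, ht1, h1]
        · rw [Function.update_of_ne hl]
          exact hpr l
      · rw [Function.update_self]
      · intro _ l
        by_cases hl : l = k
        · rw [hl, Function.update_self]
          intro h2
          exact hs ((flip_snd_none s').1 h2)
        · rw [Function.update_of_ne hl]
          exact pr_ne N _
    · exact ⟨fun k => pr N (t1 k), hpr, Or.inr ⟨k, l, hkl, Or.inl h1⟩, fun _ k => pr_ne N _⟩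
    · refine ⟨Function.update (fun k => pr N (t1 k)) l (flip (pr N (t1 k))), fun j => ?_,
        Or.inr ⟨k, l, hkl, Or.inr ?_⟩, ?_⟩
      · by_cases hj : j = l
        · rw [hj, Function.update_self, ht1, h1, tr_flip, tr_flip, tr_pr]
        · rw [Function.update_of_ne hj]
          exact hpr j
      · rw [Function.update_self, Function.update_of_ne hkl]
      · intro _ j
        by_cases hj : j = l
        · rw [hj, Function.update_self]
          intro h2
          exact pr_ne N (t1 k) ((flip_snd_none _).1 h2)
        · rw [Function.update_of_ne hj]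
          exact pr_ne N _

/-! ### extension -/

theorem exists_enum {α : Type} [DecidableEq α] {S : Finset α} (hS : S.card = m) :
    ∃ u : Fin m → α, Injective u ∧ univ.image u = S := by
  let e := S.equivFinOfCardEq hS
  refine ⟨fun i => (e.symm i).1, fun a b h => e.symm.injective (Subtype.ext h), ?_⟩
  ext x
  simp only [mem_image, mem_univ, true_and]
  constructor
  · rintro ⟨i, rfl⟩
    exact (e.symm i).2
  · intro hx
    exact ⟨e ⟨x, hx⟩, by simp⟩

theorem ext_small (hm : 2 ≤ m) (V : Finset (M m)) (t : Lab m) :
    ∃ w, w ∉ V ∧ (V.card + 1 = m → lb (insert w V) = t) := by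
  obtain ⟨x, hx⟩ := Infinite.exists_notMem_finset V
  by_cases h : V.card + 1 = m
  · obtain ⟨u, hu, hui⟩ := exists_enum (S := insert x V) (by rw [card_insert_of_notMem hx, h])
    obtain ⟨i0, hi0⟩ : ∃ i, u i = x := by
      have : x ∈ univ.image u := by rw [hui]; exact mem_insert_self _ _
      simpa using this
    obtain ⟨i1, hi1⟩ : ∃ i1 : Fin m, i1 ≠ i0 := by
      have : Nontrivial (Fin m) := Fin.nontrivial_iff_two_le.2 hm
      exact exists_ne i0
    obtain ⟨w, hw, h1⟩ := extM hu (t := fun i => if i = i0 then t else flip t)
      (Or.inr ⟨i0, i1, hi1.symm, by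
        simp only [if_neg hi1, if_true]
        exact Or.inr rfl⟩)
    rw [hui] at hw h1
    refine ⟨w, fun h2 => hw (mem_insert_of_mem h2), fun _ => ?_⟩
    have h2 := h1 i0
    rw [hi0, erase_insert hx, if_pos rfl] at h2
    exact h2
  · exact ⟨x, hx, fun h1 => absurd h1 h⟩

/-! ### types -/

/-- `v` and `v'` have the same equalities and the same labels up to `N`. -/
def E (N : ℕ) (v v' : Fin (m + 1) → M m) : Prop :=
  (∀ i j, v i = v j ↔ v' i = v' j) ∧
    ∀ J : Finset (Fin (m + 1)), (J.image v).card = m → tr N (lb (J.image v)) = tr N (lb (J.image v'))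

theorem card_image_le' {α β : Type} [DecidableEq β] {v v' : α → β} (h : ∀ i j, v' i = v' j → v i = v j)
    (J : Finset α) : (J.image v).card ≤ (J.image v').card := by
  let g : β → β := fun y => if hy : ∃ i, v' i = y then v hy.choose else y
  have hg : ∀ i, g (v' i) = v i := by
    intro i
    have hy : ∃ j, v' j = v' i := ⟨i, rfl⟩
    simp only [g, dif_pos hy]
    exact h _ _ hy.choose_spec
  have h1 : J.image v = (J.image v').image g := by
    rw [image_image]
    exact image_congr fun i _ => (hg i).symm
  rw [h1]
  exact card_image_le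

theorem card_eq {v v' : Fin (m + 1) → M m} (h : ∀ i j, v i = v j ↔ v' i = v' j)
    (J : Finset (Fin (m + 1))) : (J.image v).card = (J.image v').card :=
  le_antisymm (card_image_le' (fun i j hij => (h i j).2 hij) J)
    (card_image_le' (fun i j hij => (h i j).1 hij) J)

namespace E

variable {N : ℕ} {v v' v'' : Fin (m + 1) → M m}

theorem refl (N : ℕ) (v : Fin (m + 1) → M m) : E N v v := ⟨fun _ _ => Iff.rfl, fun _ _ => rfl⟩

theorem symm (h : E N v v') : E N v' v :=
  ⟨fun i j => (h.1 i j).symm, fun J hJ => (h.2 J (by rw [card_eq h.1, hJ])).symm⟩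

theorem trans (h : E N v v') (h' : E N v' v'') : E N v v'' :=
  ⟨fun i j => (h.1 i j).trans (h'.1 i j), fun J hJ =>
    (h.2 J hJ).trans (h'.2 J (by rw [← card_eq h.1, hJ]))⟩

theorem mono {N' : ℕ} (hN : N' ≤ N) (h : E N v v') : E N' v v' :=
  ⟨h.1, fun J hJ => tr_mono hN (h.2 J hJ)⟩

theorem comp (h : E N v v') (σ : Fin (m + 1) → Fin (m + 1)) : E N (v ∘ σ) (v' ∘ σ) := by
  refine ⟨fun i j => h.1 _ _, fun J hJ => ?_⟩
  rw [← image_image] at hJ ⊢
  rw [← image_image]
  exact h.2 _ hJ

end E

/-- all the labels in `v` have names -/
def Pr (v : Fin (m + 1) → M m) : Prop :=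
  ∀ J : Finset (Fin (m + 1)), (J.image v).card = m → (lb (J.image v)).2 ≠ none

theorem image_update {v : Fin (m + 1) → M m} {i : Fin (m + 1)} {w : M m} (J : Finset (Fin (m + 1))) :
    (J.image (Function.update v i w)) = if i ∈ J then insert w ((J.erase i).image v) else J.image v := by
  split_ifs with hi
  · conv_lhs => rw [← insert_erase hi]
    rw [image_insert, Function.update_self]
    congr 1
    apply image_congr
    intro j hj
    exact Function.update_of_ne (ne_of_mem_erase hj) _ _
  · apply image_congr
    intro j hj
    exact Function.update_of_ne (fun h => hi (by rw [← h]; exact hj)) _ _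

/-- the back and forth property -/
theorem back_forth (hm : 2 ≤ m) {N : ℕ} {v v' : Fin (m + 1) → M m} (h : E N v v') (i : Fin (m + 1))
    (w : M m) : ∃ w', E N (Function.update v i w) (Function.update v' i w') ∧
      (Pr v' → Pr (Function.update v' i w')) := by
  by_cases hw : w ∈ (univ.erase i).image v
  · -- an old point
    obtain ⟨j, hj, rfl⟩ := mem_image.1 hw
    have hji : j ≠ i := ne_of_mem_erase hj
    have key : ∀ z : Fin (m + 1) → M m,
        Function.update z i (z j) = z ∘ fun a => if a = i then j else a := by
      intro z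
      funext a
      simp only [Function.update_apply, Function.comp]
      split_ifs <;> rfl
    refine ⟨v' j, ?_, ?_⟩
    · rw [key, key]
      exact h.comp _
    · intro hP J hJ
      rw [key, ← image_image] at hJ ⊢
      exact hP _ hJ
  · -- a new point
    set V := (univ.erase i).image v with hV
    set V' := (univ.erase i).image v' with hV'
    have hVV' : V.card = V'.card := card_eq h.1 _
    have hVm : V.card ≤ m := by
      refine card_image_le.trans ?_
      rw [card_erase_of_mem (mem_univ i), card_univ, Fintype.card_fin]
      rfl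
    -- the main claim
    obtain ⟨w', hw', hQ⟩ : ∃ w', w' ∉ V' ∧ ∀ J ⊆ univ.erase i, (J.image v).card + 1 = m →
        tr N (lb (insert w (J.image v))) = tr N (lb (insert w' (J.image v'))) ∧
        (Pr v' → (lb (insert w' (J.image v'))).2 ≠ none) := by
      rcases hVm.lt_or_eq with hlt | heq
      · obtain ⟨w', hw', h1⟩ := ext_small hm V' (pr N (lb (insert w V)))
        refine ⟨w', hw', fun J hJ hc => ?_⟩
        have e1 : J.image v = V := eq_of_subset_of_card_le (image_subset_image hJ) (by omega)
        have e2 : J.image v' = V' := eq_of_subset_of_card_le (image_subset_image hJ) (by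
          rw [← card_eq h.1 J, e1, hVV'])
        have h2 := h1 (by rw [← hVV', ← e1]; exact hc)
        rw [e1, e2, h2, tr_pr]
        exact ⟨rfl, fun _ => pr_ne _ _⟩
      · -- `V` has `m` elements
        set u : Fin m → M m := fun k => v (i.succAbove k) with hu
        set u' : Fin m → M m := fun k => v' (i.succAbove k) with hu'
        have himg : (univ : Finset (Fin m)).image i.succAbove = univ.erase i := by
          ext a
          simp only [mem_image, mem_univ, true_and, mem_erase, and_true]
          constructor
          · rintro ⟨k, rfl⟩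
            exact Fin.succAbove_ne i k
          · intro ha
            exact Fin.exists_succAbove_eq ha
        have huV : univ.image u = V := by
          rw [hV, ← himg, image_image]
          rfl
        have huV' : univ.image u' = V' := by
          rw [hV', ← himg, image_image]
          rfl
        have hui : Injective u := by
          have : Set.InjOn u (univ : Finset (Fin m)) := card_image_iff.1 (by
            rw [huV, heq, card_univ, Fintype.card_fin])
          intro a b hab
          exact this (by simp) (by simp) hab
        have hui' : Injective u' := by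
          intro a b hab
          exact hui ((h.1 _ _).2 hab)
        set t : Fin m → Lab m := fun k => lb (insert w (V.erase (u k))) with ht
        have hallow : Allow (lb V) t := by
          obtain ⟨x, hx, y, hy, hxy, hg⟩ := goodM hm (insert w V) (by rw [card_insert_of_notMem hw, heq])
          have hfw : (insert w V).erase w = V := erase_insert hw
          have hmem : ∀ z ∈ V, ∃ k, u k = z ∧ (insert w V).erase z = insert w (V.erase (u k)) := by
            intro z hz
            have : z ∈ univ.image u := by rw [huV]; exact hz
            obtain ⟨k, -, hk⟩ := mem_image.1 this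
            refine ⟨k, hk, ?_⟩
            rw [hk, erase_insert_of_ne]
            intro h3
            exact hw (h3 ▸ hz)
          rcases mem_insert.1 hx with rfl | hx
          · rcases mem_insert.1 hy with rfl | hy
            · exact absurd rfl hxy
            · obtain ⟨k, hk, hk'⟩ := hmem y hy
              left
              refine ⟨k, ?_⟩
              rw [hfw, hk'] at hg
              exact hg
          · obtain ⟨k, hk, hk'⟩ := hmem x hx
            rcases mem_insert.1 hy with rfl | hy
            · left
              refine ⟨k, ?_⟩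
              rw [hfw, hk'] at hg
              exact good_symm hg
            · obtain ⟨l, hl, hl'⟩ := hmem y hy
              right
              refine ⟨k, l, fun h3 => hxy (by rw [← hk, ← hl, h3]), ?_⟩
              rw [hk', hl'] at hg
              exact hg
        obtain ⟨t', ht', ha', hp'⟩ := label_lemma (h.2 (univ.erase i) heq) hallow
        obtain ⟨w', hw', hlw'⟩ := extM hui' (t := t') (by rw [huV']; exact ha')
        rw [huV'] at hw' hlw'
        refine ⟨w', hw', fun J hJ hc => ?_⟩
        have hsub : J.image v ⊆ V := image_subset_image hJ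
        have hsub' : J.image v' ⊆ V' := image_subset_image hJ
        obtain ⟨x, hxV, hxJ⟩ : ∃ x ∈ V, x ∉ J.image v := by
          by_contra hcon
          push Not at hcon
          have := card_le_card (show V ⊆ J.image v from hcon)
          omega
        have : x ∈ univ.image u := by rw [huV]; exact hxV
        obtain ⟨k, -, hk⟩ := mem_image.1 this
        have hkV : u k ∈ V := by rw [hk]; exact hxV
        have hkV' : u' k ∈ V' := by rw [← huV']; exact mem_image_of_mem _ (mem_univ k)
        have e1 : J.image v = V.erase (u k) := by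
          apply eq_of_subset_of_card_le
          · intro z hz
            refine mem_erase.2 ⟨fun h3 => hxJ ?_, hsub hz⟩
            rw [← hk, ← h3]
            exact hz
          · rw [card_erase_of_mem hkV]
            omega
        have e2 : J.image v' = V'.erase (u' k) := by
          apply eq_of_subset_of_card_le
          · intro z hz
            refine mem_erase.2 ⟨fun h3 => hxJ ?_, hsub' hz⟩
            obtain ⟨j, hj, hjz⟩ := mem_image.1 hz
            rw [h3] at hjz
            rw [← hk]
            have h4 : v j = v (i.succAbove k) := (h.1 _ _).2 hjz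
            exact mem_image.2 ⟨j, hj, h4⟩
          · rw [card_erase_of_mem hkV', ← card_eq h.1 J]
            omega
        rw [e1, e2, hlw' k]
        exact ⟨ht' k, fun hP => hp' (hP _ (by rw [← hVV', heq])) k⟩
    refine ⟨w', ⟨fun a b => ?_, fun J hJ => ?_⟩, fun hP J hJ => ?_⟩
    · -- equalities
      have hmem : ∀ a, a ≠ i → v a ≠ w := fun a ha h1 =>
        hw (mem_image.2 ⟨a, mem_erase.2 ⟨ha, mem_univ _⟩, h1⟩)
      have hmem' : ∀ a, a ≠ i → v' a ≠ w' := fun a ha h1 =>
        hw' (mem_image.2 ⟨a, mem_erase.2 ⟨ha, mem_univ _⟩, h1⟩)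
      by_cases ha : a = i
      · by_cases hb : b = i
        · simp [ha, hb]
        · rw [ha, Function.update_self, Function.update_self, Function.update_of_ne hb,
            Function.update_of_ne hb]
          exact ⟨fun h1 => absurd h1.symm (hmem b hb), fun h1 => absurd h1.symm (hmem' b hb)⟩
      · by_cases hb : b = i
        · rw [hb, Function.update_self, Function.update_self, Function.update_of_ne ha,
            Function.update_of_ne ha]
          exact ⟨fun h1 => absurd h1 (hmem a ha), fun h1 => absurd h1 (hmem' a ha)⟩
        · rw [Function.update_of_ne ha, Function.update_of_ne ha, Function.update_of_ne hb,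
            Function.update_of_ne hb]
          exact h.1 a b
    · rw [image_update] at hJ ⊢
      rw [image_update]
      split_ifs at hJ ⊢ with hi
      · refine (hQ (J.erase i) (erase_subset_erase _ (subset_univ J)) ?_).1
        rw [card_insert_of_notMem] at hJ
        · exact hJ
        · intro h1
          exact hw (image_subset_image (erase_subset_erase _ (subset_univ J)) h1)
      · exact h.2 J hJ
    · rw [image_update] at hJ ⊢
      split_ifs at hJ ⊢ with hi
      · refine (hQ (J.erase i) (erase_subset_erase _ (subset_univ J)) ?_).2 hP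
        rw [card_insert_of_notMem] at hJ
        · rw [card_eq h.1]
          exact hJ
        · intro h1
          exact hw' (image_subset_image (erase_subset_erase _ (subset_univ J)) h1)
      · exact hP J hJ

/-- Each truncated type is realized by a tuple whose labels have names. -/
theorem exists_pr (hm : 2 ≤ m) (N : ℕ) (v : Fin (m + 1) → M m) : ∃ v', E N v v' ∧ Pr v' := by
  have key : ∀ k : ℕ, ∃ v', E N (fun i : Fin (m + 1) => if i.val < k then v i else v 0) v' ∧ Pr v' := by
    intro k
    induction k with
    | zero =>
      refine ⟨fun _ => v 0, ?_, ?_⟩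
      · have : (fun i : Fin (m + 1) => if i.val < 0 then v i else v 0) = fun _ => v 0 := by
          funext i
          simp
        rw [this]
        exact E.refl _ _
      · intro J hJ
        have h1 : (J.image fun _ : Fin (m + 1) => v 0).card ≤ ({v 0} : Finset (M m)).card :=
          card_le_card fun x hx => by
            obtain ⟨_, _, h2⟩ := mem_image.1 hx
            exact mem_singleton.2 h2.symm
        rw [card_singleton] at h1
        omega
    | succ k ih =>
      obtain ⟨v', h1, h2⟩ := ih
      by_cases hk : k < m + 1
      · obtain ⟨w', h3, h4⟩ := back_forth hm h1 ⟨k, hk⟩ (v ⟨k, hk⟩)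
        refine ⟨_, ?_, h4 h2⟩
        convert h3 using 1
        funext i
        simp only [Function.update_apply]
        by_cases hi : i = ⟨k, hk⟩
        · rw [if_pos hi, hi, if_pos]
          simp
        · rw [if_neg hi]
          have : i.val ≠ k := fun h5 => hi (Fin.ext h5)
          by_cases h6 : i.val < k
          · rw [if_pos h6, if_pos (by omega)]
          · rw [if_neg h6, if_neg (by omega)]
      · refine ⟨v', ?_, h2⟩
        convert h1 using 1
        funext i
        have := i.2
        rw [if_pos (by omega), if_pos (by omega)]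
  obtain ⟨v', h1, h2⟩ := key (m + 1)
  refine ⟨v', ?_, h2⟩
  convert h1 using 1
  funext i
  rw [if_pos i.2]

end Pool.Agent.W5h78.Cyl
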